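import Pool.Agent.U26Z.SH.Main
import Pool.Agent.U26Z.EX.Long

set_option autoImplicit false

/-!
# Sampling numbers, relative form: no `(log X) ^ (1 - η)` windows determine the density of the primes in `(x, x + Y]`
-/

namespace Pool.Agent.U26Z.RS

open Finset Filter Topology
open Pool.Agent.N610.MS Pool.Agent.U26Z.SH
open Pool.Agent.H378R2 (WW PW GoodS)

theorem V_lower {P : Finset ℕ} (hP : ∀ p ∈ P, p.Prime) (q : ℕ) :
    q * (∏ p ∈ P, p).totient ≤ V P (q * ∏ p ∈ P, p) := by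
  classical
  obtain ⟨W, hW⟩ : ∃ W, W = ∏ p ∈ P, p := ⟨_, rfl⟩
  have hV : ∀ N, V P N = ((Icc 1 N).filter (W.Coprime)).card := by
    intro N
    unfold V
    congr 1
    refine Finset.filter_congr fun h _ => ?_
    rw [hW, Nat.coprime_prod_left_iff]
    refine forall₂_congr fun p hp => ?_
    rw [(hP p hp).coprime_iff_not_dvd]
  rw [hV, ← hW]
  induction q with
  | zero => simp
  | succ q ih =>
    have h1 : Icc 1 ((q + 1) * W) = Icc 1 (q * W) ∪ Ico (q * W + 1) (q * W + 1 + W) := by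
      ext n
      rw [mem_union, mem_Icc, mem_Icc, mem_Ico]
      have e : (q + 1) * W = q * W + W := by ring
      rw [e]
      omega
    rw [h1, Finset.filter_union, Finset.card_union_of_disjoint, Nat.filter_coprime_Ico_eq_totient]
    · have e : (q + 1) * W.totient = q * W.totient + W.totient := by ring
      rw [e]
      omega
    · rw [Finset.disjoint_left]
      intro n hn hn'
      rw [mem_filter, mem_Icc] at hn
      rw [mem_filter, mem_Ico] at hn'
      omega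

theorem V_upper {P : Finset ℕ} (hP : ∀ p ∈ P, p.Prime) (N : ℕ) :
    V P N ≤ (∏ p ∈ P, p).totient * (N / (∏ p ∈ P, p) + 1) := by
  classical
  obtain ⟨W, hW⟩ : ∃ W, W = ∏ p ∈ P, p := ⟨_, rfl⟩
  have hWp : 0 < W := by rw [hW]; exact Finset.prod_pos fun p hp => (hP p hp).pos
  have hV : V P N = ((Ico 1 (1 + N)).filter (W.Coprime)).card := by
    unfold V
    have e : Ico 1 (1 + N) = Icc 1 N := by
      ext n
      rw [mem_Ico, mem_Icc]
      omega
    rw [e]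
    congr 1
    refine Finset.filter_congr fun h _ => ?_
    rw [hW, Nat.coprime_prod_left_iff]
    refine forall₂_congr fun p hp => ?_
    rw [(hP p hp).coprime_iff_not_dvd]
  rw [hV, ← hW]
  exact Nat.Ico_filter_coprime_le 1 N hWp.ne'

/-- the relative density is close to one for long intervals -/
theorem rel_close {P : Finset ℕ} (hP : ∀ p ∈ P, p.Prime) (hB : 1 / 2 ≤ ∏ p ∈ P, (1 - 1 / (p : ℝ))) {y : ℝ} (hy : 0 < y) :
    |rel P y - 1| ≤ 4 * ((∏ p ∈ P, p : ℕ) : ℝ) / y := by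
  obtain ⟨W, hW⟩ : ∃ W, W = ∏ p ∈ P, p := ⟨_, rfl⟩
  have hWp : 0 < W := by rw [hW]; exact Finset.prod_pos fun p hp => (hP p hp).pos
  have hWr : (1 : ℝ) ≤ W := by exact_mod_cast hWp
  obtain ⟨b, hb⟩ : ∃ b, b = ∏ p ∈ P, (1 - 1 / (p : ℝ)) := ⟨_, rfl⟩
  have htot : ((W.totient : ℕ) : ℝ) = (W : ℝ) * b := by
    rw [hW, hb]
    exact Pool.Agent.H510R2.Maier.totient_prod P hP
  have hle : (W.totient : ℝ) ≤ W := by exact_mod_cast Nat.totient_le W
  have hb1 : b ≤ 1 := by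
    rw [htot] at hle
    by_contra hcon
    push Not at hcon
    nlinarith
  rw [← hb] at hB
  obtain ⟨N, hN⟩ : ∃ N, N = ⌊y⌋₊ := ⟨_, rfl⟩
  have hNy : (N : ℝ) ≤ y := by rw [hN]; exact Nat.floor_le hy.le
  have hNy2 : y < N + 1 := by rw [hN]; exact Nat.lt_floor_add_one y
  have h1 := V_upper hP N
  have h2 := V_lower hP (N / W)
  rw [← hW] at h1 h2
  have h3 : V P ((N / W) * W) ≤ V P N := by
    unfold V
    apply Finset.card_le_card
    apply Finset.filter_subset_filter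
    apply Finset.Icc_subset_Icc le_rfl
    exact Nat.div_mul_le_self N W
  have h4 : (V P N : ℝ) ≤ W.totient * (((N / W : ℕ) : ℝ) + 1) := by exact_mod_cast h1
  have h5 : ((N / W : ℕ) : ℝ) * W.totient ≤ V P N := by exact_mod_cast h2.trans h3
  have h6 : ((N / W : ℕ) : ℝ) ≤ (N : ℝ) / W := Nat.cast_div_le
  have h7 : (N : ℝ) / W ≤ ((N / W : ℕ) : ℝ) + 1 := by
    rw [div_le_iff₀ (by linarith)]
    have h8 : N < (N / W + 1) * W := Nat.lt_mul_of_div_lt (Nat.lt_succ_self _) hWp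
    exact_mod_cast h8.le
  have hb0 : 0 < b := by linarith
  have hφ0 : (0 : ℝ) ≤ W.totient := Nat.cast_nonneg _
  have hup : (V P N : ℝ) ≤ y * b + W := by
    calc (V P N : ℝ) ≤ W.totient * ((N : ℝ) / W + 1) := h4.trans (by gcongr)
      _ = N * b + W.totient := by rw [htot]; field_simp
      _ ≤ y * b + W := by gcongr
  have hdn : y * b - 2 * W ≤ V P N := by
    have h9 : ((N : ℝ) / W - 1) * W.totient ≤ V P N := by
      refine le_trans ?_ h5
      apply mul_le_mul_of_nonneg_right _ hφ0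
      linarith
    have h10 : ((N : ℝ) / W - 1) * W.totient = N * b - W.totient := by rw [htot]; field_simp
    have h11 : (y - 1) * b ≤ N * b := by
      apply mul_le_mul_of_nonneg_right _ hb0.le
      linarith
    nlinarith
  unfold rel
  rw [← hb, ← hN, ← hW]
  have hyb : 0 < y * b := by positivity
  rw [div_sub_one hyb.ne', abs_div, abs_of_pos hyb, div_le_div_iff₀ hyb hy]
  have h12 : |(V P N : ℝ) - y * b| ≤ 2 * W := by
    rw [abs_le]
    constructor <;> linarith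
  calc |(V P N : ℝ) - y * b| * y ≤ 2 * W * y := by gcongr
    _ = 4 * W * (y * (1 / 2)) := by ring
    _ ≤ 4 * W * (y * b) := by gcongr

set_option maxHeartbeats 4000000 in
/-- the rows of the Maier matrix, with all points shifted by almost multiples of the modulus -/
lemma core4 {a κ σ δ τ ε B X : ℝ} {P : Finset ℕ} {w : ℕ → ℝ} {ρ : ℝ} {m : ℕ} {l c : ℕ → ℝ}
    {Y H : ℝ} {s : ℕ → ℕ} (ha : 1 ≤ a) (hσ : σ = 1 ∨ σ = -1) (hδ : 0 < δ)
    (hτd : τ = δ / (16 * (|B| + 1))) (hX1 : 1 < X) (hlog : 1 < Real.log X)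
    (hpowX : Real.log X ^ (a + κ) ≤ X ^ (9 / 10 : ℝ))
    (hsm : 1 / Real.log X ≤ τ ∧ X ^ (-(1 / 10) : ℝ) ≤ τ ∧
      2 * Real.log (4 * X) * (480 * X ^ (-ε)) ≤ τ ∧ 2 / X ≤ τ ∧ 4 ≤ X ^ ε)
    (s4 : 2 * Real.log (4 * X) / H ≤ τ)
    (hPB : 1 / 2 ≤ ∏ p ∈ P, (1 - 1 / (p : ℝ)))
    (hdev : ∀ y : ℝ, Real.log X ^ a ≤ y → y ≤ Real.log X ^ (a + κ) → 2 * δ ≤ σ * (rel P y - 1))
    (hρ : |ρ - 1| ≤ τ) (hw : ∀ n, 0 ≤ w n ∧ w n ≤ 20 * ((∏ p ∈ P, p : ℕ) : ℝ) / X)
    (hwn : ∀ n, w n ≠ 0 → X < n ∧ (n : ℝ) < 3 * X ∧ (∏ p ∈ P, p) ∣ n)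
    (hws : ∑ n ∈ Icc 1 ⌊3 * X⌋₊, w n = 1)
    (hwm : ∀ Y : ℕ, (Y : ℝ) ≤ X ^ (9 / 10 : ℝ) →
      |∑ n ∈ Icc 1 ⌊3 * X⌋₊, w n * lp n Y - ρ * (V P Y / ∏ p ∈ P, (1 - 1 / (p : ℝ)))| ≤
        Y / Real.log X ^ 1)
    (hwsh : ∀ s : ℕ, (∏ p ∈ P, p) ∣ s → (s : ℝ) ≤ X / 2 →
      ∑ n ∈ Icc 1 ⌊3 * X⌋₊, |w n - w (n + s)| ≤ 240 * s / X)
    (hlj : ∀ j < m, 0 ≤ l j * Y ∧ l j * Y ≤ X ^ (1 - ε)) (hX1ε : 1 ≤ X ^ (1 - ε))
    (hsd : ∀ j < m, (∏ p ∈ P, p) ∣ s j) (hsc : ∀ j < m, |l j * Y - s j| ≤ 1)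
    (hc1 : ∑ j ∈ range m, c j = 1) (hcB : ∑ j ∈ range m, |c j| ≤ B)
    (hH1 : Real.log X ^ a ≤ H) (hH2 : H ≤ Real.log X ^ (a + κ))
    (hYm : |∑ n ∈ Icc 1 ⌊3 * X⌋₊, w n * den n Y - 1| ≤ 5 * τ) :
    ∃ x : ℕ, X < x ∧ (x : ℝ) < 3 * X ∧
      δ ≤ σ * (∑ j ∈ range m, c j * den (x + l j * Y) H - den x Y) := by
  classical
  obtain ⟨s1, s2, s3, s5, s6⟩ := hsm
  have hτ : 0 < τ := by rw [hτd]; positivity
  have hX0 : 0 < X := by linarith
  have hX4 : 4 * X ^ (1 - ε) ≤ X := by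
    have hXp : 0 < X ^ (1 - ε) := by positivity
    calc 4 * X ^ (1 - ε) ≤ X ^ ε * X ^ (1 - ε) := by gcongr
      _ = X := by rw [← Real.rpow_add hX0]; simp
  have hH1' : 1 ≤ H := by
    refine le_trans ?_ hH1
    exact Real.one_le_rpow hlog.le (by linarith)
  have hH0 : 0 < H := by linarith
  have hbase : |∑ n ∈ Icc 1 ⌊3 * X⌋₊, w n * R n H - rel P H| ≤
      2 * τ + 1 / Real.log X + X ^ (-(1 / 10) : ℝ) := by
    refine MAIN.key (X := X) (L := Real.log X) (ρ := ρ) (ε' := τ) (P := P) (w := w)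
      (y := H) hX1.le (by linarith) rfl hPB hρ (fun n => (hw n).1) (fun n hn => (hwn n hn).1) hws hH0
      (hH2.trans hpowX) ?_
    have h5 : ((⌊H⌋₊ : ℕ) : ℝ) ≤ X ^ (9 / 10 : ℝ) := (Nat.floor_le hH0.le).trans (hH2.trans hpowX)
    have h6 := hwm ⌊H⌋₊ h5
    rwa [pow_one] at h6
  have hkey : ∀ j < m, |∑ n ∈ Icc 1 ⌊3 * X⌋₊, w n * den (n + l j * Y) H - rel P H| ≤ 8 * τ := by
    intro j hj
    obtain ⟨s, hs⟩ : ∃ s' : ℕ, s' = s j := ⟨_, rfl⟩
    have hs2 := hsc j hj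
    have hs1 : (s : ℝ) ≤ 2 * X ^ (1 - ε) := by
      rw [abs_le] at hs2
      rw [hs]
      linarith [(hlj j hj).2]
    have hsd' := hsd j hj
    rw [← hs] at hs2 hsd'
    have hsX : (s : ℝ) ≤ X / 2 := by linarith
    -- from the real shift to the shift by `s`
    have h1 : |∑ n ∈ Icc 1 ⌊3 * X⌋₊, w n * den (n + l j * Y) H -
        ∑ n ∈ Icc 1 ⌊3 * X⌋₊, w n * R (n + s : ℕ) H| ≤ 2 * τ := by
      rw [← Finset.sum_sub_distrib]
      calc |∑ n ∈ Icc 1 ⌊3 * X⌋₊, (w n * den (n + l j * Y) H - w n * R (n + s : ℕ) H)|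
          ≤ ∑ n ∈ Icc 1 ⌊3 * X⌋₊, |w n * den (n + l j * Y) H - w n * R (n + s : ℕ) H| :=
            Finset.abs_sum_le_sum_abs _ _
        _ ≤ ∑ n ∈ Icc 1 ⌊3 * X⌋₊, w n * (2 * τ) := by
            refine Finset.sum_le_sum fun n _ => ?_
            rw [R_eq _ hH0.le, ← mul_sub, abs_mul, abs_of_nonneg (hw n).1]
            by_cases hwn0 : w n = 0
            · rw [hwn0]; simp
            · obtain ⟨g1, g2, _⟩ := hwn n hwn0
              refine mul_le_mul_of_nonneg_left ?_ (hw n).1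
              have g3 := hlj j hj
              refine (den_close (X := X) hX1.le ?_ ?_ ?_ hH1' ?_).trans ?_
              · linarith
              · push_cast
                have : (0 : ℝ) ≤ s := Nat.cast_nonneg _
                linarith
              · linarith
              · push_cast
                rw [show (n : ℝ) + l j * Y - (n + s) = l j * Y - s by ring]
                exact hs2
              · linarith
        _ = 2 * τ := by rw [← Finset.sum_mul, hws, one_mul]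
    -- from the shift by `s` to no shift
    have h2 : |∑ n ∈ Icc 1 ⌊3 * X⌋₊, w n * R (n + s : ℕ) H -
        ∑ n ∈ Icc 1 ⌊3 * X⌋₊, w n * R n H| ≤ τ := by
      have g1 := shift_sum (X := X) (w := w) (g := fun n => R n H) (s := s)
        (G := 2 * Real.log (4 * X)) hX1.le (by linarith)
        (fun n hn => ⟨(hwn n hn).1, (hwn n hn).2.1⟩) (by
          intro n hn1 hn4
          show |R n H| ≤ _
          rw [R_eq _ hH0.le]
          exact den_le (by exact_mod_cast hn1) hn4 hH1')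
      refine g1.trans ?_
      refine le_trans ?_ s3
      have g2 : 0 ≤ 2 * Real.log (4 * X) := by
        have := Real.log_nonneg (show 1 ≤ 4 * X by linarith)
        linarith
      refine mul_le_mul_of_nonneg_left ?_ g2
      refine (hwsh s hsd' hsX).trans ?_
      calc 240 * (s : ℝ) / X ≤ 240 * (2 * X ^ (1 - ε)) / X := by gcongr
        _ = 480 * X ^ (-ε) := by
            rw [Real.rpow_sub hX0, Real.rpow_one, Real.rpow_neg hX0.le]
            field_simp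
            norm_num
    have h3 : ∑ n ∈ Icc 1 ⌊3 * X⌋₊, w n * den (n + l j * Y) H - rel P H =
        (∑ n ∈ Icc 1 ⌊3 * X⌋₊, w n * den (n + l j * Y) H -
          ∑ n ∈ Icc 1 ⌊3 * X⌋₊, w n * R (n + s : ℕ) H) +
        ((∑ n ∈ Icc 1 ⌊3 * X⌋₊, w n * R (n + s : ℕ) H - ∑ n ∈ Icc 1 ⌊3 * X⌋₊, w n * R n H) +
        (∑ n ∈ Icc 1 ⌊3 * X⌋₊, w n * R n H - rel P H)) := by ring
    rw [h3]
    refine (abs_add_le _ _).trans ?_
    have h4 := abs_add_le (∑ n ∈ Icc 1 ⌊3 * X⌋₊, w n * R (n + s : ℕ) H -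
      ∑ n ∈ Icc 1 ⌊3 * X⌋₊, w n * R n H) (∑ n ∈ Icc 1 ⌊3 * X⌋₊, w n * R n H - rel P H)
    linarith
  by_contra hcon
  push Not at hcon
  -- the mean over the rows
  have e1 : ∑ n ∈ Icc 1 ⌊3 * X⌋₊, w n * (σ * (∑ j ∈ range m, c j * den (n + l j * Y) H - den n Y)) =
      σ * (rel P H - 1) + σ * ∑ j ∈ range m, c j *
        (∑ n ∈ Icc 1 ⌊3 * X⌋₊, w n * den (n + l j * Y) H - rel P H) -
        σ * (∑ n ∈ Icc 1 ⌊3 * X⌋₊, w n * den n Y - 1) := by
    have e2 : ∑ n ∈ Icc 1 ⌊3 * X⌋₊, w n * (σ * (∑ j ∈ range m, c j * den (n + l j * Y) H - den n Y)) =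
        σ * (∑ j ∈ range m, c j * ∑ n ∈ Icc 1 ⌊3 * X⌋₊, w n * den (n + l j * Y) H) -
          σ * ∑ n ∈ Icc 1 ⌊3 * X⌋₊, w n * den n Y := by
      have e3 : ∀ n ∈ Icc 1 ⌊3 * X⌋₊,
          w n * (σ * (∑ j ∈ range m, c j * den (n + l j * Y) H - den n Y)) =
          σ * (∑ j ∈ range m, c j * (w n * den (n + l j * Y) H)) - σ * (w n * den n Y) := by
        intro n _
        have e4 : ∑ j ∈ range m, c j * (w n * den (n + l j * Y) H) =
            w n * ∑ j ∈ range m, c j * den (n + l j * Y) H := by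
          rw [Finset.mul_sum]
          exact Finset.sum_congr rfl fun j _ => by ring
        rw [e4]; ring
      rw [Finset.sum_congr rfl e3, Finset.sum_sub_distrib, ← Finset.mul_sum, ← Finset.mul_sum,
        Finset.sum_comm]
      congr 2
      exact Finset.sum_congr rfl fun j _ => by rw [Finset.mul_sum]
    rw [e2]
    have e5 : ∑ j ∈ range m, c j * (∑ n ∈ Icc 1 ⌊3 * X⌋₊, w n * den (n + l j * Y) H - rel P H) =
        ∑ j ∈ range m, c j * ∑ n ∈ Icc 1 ⌊3 * X⌋₊, w n * den (n + l j * Y) H - rel P H := by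
      have : ∀ j ∈ range m, c j * (∑ n ∈ Icc 1 ⌊3 * X⌋₊, w n * den (n + l j * Y) H - rel P H) =
          c j * (∑ n ∈ Icc 1 ⌊3 * X⌋₊, w n * den (n + l j * Y) H) - c j * rel P H := by
        intro j _; ring
      rw [Finset.sum_congr rfl this, Finset.sum_sub_distrib, ← Finset.sum_mul, hc1, one_mul]
    rw [e5]; ring
  have hσa : |σ| = 1 := by rcases hσ with h | h <;> rw [h] <;> simp
  have h1 : |σ * ∑ j ∈ range m, c j *
      (∑ n ∈ Icc 1 ⌊3 * X⌋₊, w n * den (n + l j * Y) H - rel P H)| ≤ |B| * (8 * τ) := by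
    rw [abs_mul, hσa, one_mul]
    calc |∑ j ∈ range m, c j * (∑ n ∈ Icc 1 ⌊3 * X⌋₊, w n * den (n + l j * Y) H - rel P H)|
        ≤ ∑ j ∈ range m, |c j * (∑ n ∈ Icc 1 ⌊3 * X⌋₊, w n * den (n + l j * Y) H - rel P H)| :=
          Finset.abs_sum_le_sum_abs _ _
      _ ≤ ∑ j ∈ range m, |c j| * (8 * τ) := by
          refine Finset.sum_le_sum fun j hj => ?_
          rw [abs_mul]
          exact mul_le_mul_of_nonneg_left (hkey j (mem_range.1 hj)) (abs_nonneg _)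
      _ = (∑ j ∈ range m, |c j|) * (8 * τ) := by rw [Finset.sum_mul]
      _ ≤ |B| * (8 * τ) := by
          have := hcB.trans (le_abs_self B)
          gcongr
  have h1' : |σ * (∑ n ∈ Icc 1 ⌊3 * X⌋₊, w n * den n Y - 1)| ≤ 5 * τ := by
    rw [abs_mul, hσa, one_mul]
    exact hYm
  have h2 : |B| * (8 * τ) + 5 * τ < δ := by
    rw [hτd]
    have e6 : |B| * (8 * (δ / (16 * (|B| + 1)))) + 5 * (δ / (16 * (|B| + 1))) =
        δ * ((8 * |B| + 5) / (16 * (|B| + 1))) := by ring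
    rw [e6]
    have : (8 * |B| + 5) / (16 * (|B| + 1)) < 1 := by
      rw [div_lt_one (by positivity)]
      have := abs_nonneg B
      linarith
    calc δ * ((8 * |B| + 5) / (16 * (|B| + 1))) < δ * 1 := by gcongr
      _ = δ := mul_one _
  have h3 := hdev H hH1 hH2
  have h4 : ∑ n ∈ Icc 1 ⌊3 * X⌋₊, w n * (σ * (∑ j ∈ range m, c j * den (n + l j * Y) H - den n Y)) ≤
      ∑ n ∈ Icc 1 ⌊3 * X⌋₊, w n * δ := by
    refine Finset.sum_le_sum fun n _ => ?_
    by_cases hwn0 : w n = 0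
    · rw [hwn0]; simp
    · obtain ⟨g1, g2, _⟩ := hwn n hwn0
      exact mul_le_mul_of_nonneg_left (hcon n g1 g2).le (hw n).1
  rw [e1, ← Finset.sum_mul, hws, one_mul] at h4
  have h5 := (abs_le.1 h1).1
  have h6 := (abs_le.1 h1').2
  linarith

/-- **no `(log X) ^ (1 - η)` windows determine the density of the primes of `(x, x + Y]`** -/
theorem lowerR (A η : ℝ) (hη : 0 < η) :
    ∃ δ : ℝ, 0 < δ ∧ ∀ B : ℝ, ∃ K : ℝ, 0 < K ∧ ∀ θ ε : ℝ, 0 < θ → 0 < ε →
      ∀ᶠ X : ℝ in atTop, ∀ m : ℕ, (m : ℝ) ≤ Real.log X ^ (1 - η) → ∀ l : ℕ → ℝ,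
        (∀ j < m, 0 ≤ l j ∧ l j ≤ 1) → ∀ T : ℝ, X ^ θ ≤ T → T ≤ X ^ (1 - 2 * ε) →
        ∃ Y : ℝ, T ≤ Y ∧ Y ≤ T * X ^ ε ∧
        ∀ c : ℕ → ℝ, ∑ j ∈ range m, c j = 1 → ∑ j ∈ range m, |c j| ≤ B →
        ∀ H : ℝ, K * Real.log X ≤ H → H ≤ Real.log X ^ A →
        (∃ x : ℕ, X < x ∧ (x : ℝ) < 3 * X ∧
          den x Y + δ ≤ ∑ j ∈ range m, c j * den (x + l j * Y) H) ∧
        (∃ x : ℕ, X < x ∧ (x : ℝ) < 3 * X ∧
          ∑ j ∈ range m, c j * den (x + l j * Y) H ≤ den x Y - δ) := by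
  classical
  obtain ⟨κ, hκ, hcnt⟩ := cnt3 t_BON (t_LEG t_BON) η hη
  obtain ⟨N, hN⟩ : ∃ N : ℕ, N = ⌊|A| / κ⌋₊ + 1 := ⟨_, rfl⟩
  have hNpos : 0 < N := by omega
  have : NeZero N := ⟨hNpos.ne'⟩
  let sg : Bool → ℝ := fun b => if b then 1 else -1
  have hsg : ∀ b, sg b = 1 ∨ sg b = -1 := by
    intro b; cases b
    · exact Or.inr rfl
    · exact Or.inl rfl
  let av : Fin N × Bool → ℝ := fun i => 1 + (i.1 : ℕ) * κ
  have hav : ∀ i, 1 ≤ av i := by
    intro i
    show 1 ≤ 1 + ((i.1 : ℕ) : ℝ) * κ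
    have : 0 ≤ ((i.1 : ℕ) : ℝ) * κ := by positivity
    linarith
  choose dl hdl _ hcl using fun i : Fin N × Bool => hcnt (av i) (hav i) (sg i.2) (hsg i.2)
  obtain ⟨i0, hi0⟩ := Finite.exists_min dl
  obtain ⟨δ, hδd⟩ : ∃ δ : ℝ, δ = dl i0 := ⟨_, rfl⟩
  have hδ : 0 < δ := by rw [hδd]; exact hdl i0
  refine ⟨δ / 2, by positivity, fun B => ?_⟩
  obtain ⟨τ, hτd⟩ : ∃ τ : ℝ, τ = δ / (16 * (|B| + 1)) := ⟨_, rfl⟩
  have hτ : 0 < τ := by rw [hτd]; positivity
  refine ⟨max 1 (4 / τ), by positivity, fun θ ε hθ hε => ?_⟩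
  obtain ⟨ε₁, hε₁⟩ : ∃ ε₁, ε₁ = min ε (θ / 2) := ⟨_, rfl⟩
  have hε10 : 0 < ε₁ := by rw [hε₁]; exact lt_min hε (by positivity)
  have hε1ε : ε₁ ≤ ε := by rw [hε₁]; exact min_le_left _ _
  have hε1θ : ε₁ ≤ θ / 2 := by rw [hε₁]; exact min_le_right _ _
  have hpow : ∀ᶠ X : ℝ in atTop, ∀ i : Fin N × Bool,
      Real.log X ^ (av i + κ) ≤ X ^ (9 / 10 : ℝ) := by
    rw [Filter.eventually_all]
    intro i
    have := (isLittleO_log_rpow_rpow_atTop (av i + κ) (show (0 : ℝ) < 9 / 10 by norm_num)).bound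
      (show (0 : ℝ) < 1 by norm_num)
    filter_upwards [this, eventually_ge_atTop (1 : ℝ)] with X hX hX1
    have hl : 0 ≤ Real.log X := Real.log_nonneg hX1
    rw [one_mul, Real.norm_of_nonneg (Real.rpow_nonneg hl _),
      Real.norm_of_nonneg (Real.rpow_nonneg (by linarith) _)] at hX
    exact hX
  have hcard : (0 : ℝ) < Fintype.card (Fin N × Bool) := by
    exact_mod_cast Fintype.card_pos
  filter_upwards [Filter.eventually_all.2 hcl, rows2 1 τ hτ, ev_small τ ε hτ hε, hpow,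
    ev_pow η (ε₁ / Fintype.card (Fin N × Bool)) hη (by positivity),
    eventually_gt_atTop (Real.exp 1),
    (tendsto_rpow_atTop (show 0 < θ / 2 by positivity)).eventually_ge_atTop (4 / τ),
    Filter.eventually_atTop.2 (by
      obtain ⟨y₀, hy₀⟩ := Filter.eventually_atTop.1 (EX.longg (δ := δ / 2) (D := 1) (by positivity) one_pos)
      exact ⟨y₀, fun X hX x (hx : X < x) => hy₀ x (by linarith)⟩),
    (tendsto_rpow_atTop (show (0 : ℝ) < 1 / 10 by norm_num)).eventually_ge_atTop 3]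
      with X hcX hrX hsm hpowX hWX hXe hXθ hlong hX3 m hm l hl T hTθ hT2
  obtain ⟨hsm, hl4⟩ := hsm
  obtain ⟨ps, S, hS, hrow⟩ := hrX
  choose P hP hPX hPB hdev using fun i => hcX i S ps hS
  choose w ρ hρ hw hwn hws hwm hwsh using fun i => hrow (P i) (hP i) (hPB i)
  have hX1 : 1 < X := by
    have := Real.add_one_le_exp (1 : ℝ)
    linarith
  have hX0 : 0 < X := by linarith
  have hlog : 1 < Real.log X := by
    rw [Real.lt_log_iff_exp_lt (by linarith)]
    exact hXe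
  have hWpos : ∀ i, 0 < ∏ p ∈ P i, p := by
    intro i
    refine Finset.prod_pos fun p hp => ?_
    have h3 := hP i hp
    rw [Pool.Agent.H378R2.PW, Finset.mem_filter] at h3
    exact h3.2.1.pos
  obtain ⟨W, hWd⟩ : ∃ W : ℕ, W = ∏ i, ∏ p ∈ P i, p := ⟨_, rfl⟩
  have hWp : 0 < W := by rw [hWd]; exact Finset.prod_pos fun i _ => hWpos i
  have hWdvd : ∀ i, (∏ p ∈ P i, p) ∣ W := fun i => by
    rw [hWd]; exact Finset.dvd_prod_of_mem _ (Finset.mem_univ i)
  have hWm : (W : ℝ) ^ m ≤ X ^ ε₁ := by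
    rw [hWd]
    push_cast
    rw [← Finset.prod_pow]
    calc ∏ i, (∏ p ∈ P i, (p : ℝ)) ^ m ≤ ∏ i : Fin N × Bool, X ^ (ε₁ / Fintype.card (Fin N × Bool)) := by
          refine Finset.prod_le_prod (fun i _ => by positivity) fun i _ => ?_
          have := hWX m (∏ p ∈ P i, p) hm (hPX i)
          push_cast at this
          exact this
      _ = X ^ ε₁ := by
          rw [Finset.prod_const, Finset.card_univ, ← Real.rpow_natCast, ← Real.rpow_mul hX0.le]
          congr 1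
          field_simp
  have hT1 : 1 ≤ T := (Real.one_le_rpow hX1.le hθ.le).trans hTθ
  obtain ⟨k, hk1, hk2, nn, hnn⟩ := dirichlet m W hWp T (by linarith) l
    (fun j hj => (hl j hj).1)
  have hk1r : (1 : ℝ) ≤ k := by exact_mod_cast hk1
  have hk2r : (k : ℝ) ≤ X ^ ε := by
    refine le_trans (le_trans ?_ hWm) (Real.rpow_le_rpow_of_exponent_le hX1.le hε1ε)
    exact_mod_cast hk2
  have hXε : 0 < X ^ ε := by positivity
  obtain ⟨Y, hYd⟩ : ∃ Y : ℝ, Y = k * T := ⟨_, rfl⟩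
  have hY1 : T ≤ Y := by rw [hYd]; nlinarith
  have hY2 : Y ≤ T * X ^ ε := by rw [hYd, mul_comm]; gcongr
  have hY0 : 0 ≤ Y := by linarith
  have hYX : Y ≤ X ^ (1 - ε) := by
    calc Y ≤ T * X ^ ε := hY2
      _ ≤ X ^ (1 - 2 * ε) * X ^ ε := by gcongr
      _ = X ^ (1 - ε) := by rw [← Real.rpow_add hX0]; congr 1; ring
  have hX1ε : 1 ≤ X ^ (1 - ε) := (hT1.trans hY1).trans hYX
  have hlj : ∀ j < m, 0 ≤ l j * Y ∧ l j * Y ≤ X ^ (1 - ε) := by
    intro j hj
    obtain ⟨g1, g2⟩ := hl j hj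
    refine ⟨mul_nonneg g1 hY0, ?_⟩
    calc l j * Y ≤ 1 * Y := by gcongr
      _ ≤ _ := by rw [one_mul]; exact hYX
  have hsc : ∀ j < m, |l j * Y - ((W * nn j : ℕ) : ℝ)| ≤ 1 := by
    intro j hj
    rw [hYd]
    exact hnn j hj
  refine ⟨Y, hY1, hY2, fun c hc1 hcB H hH1 hH2 => ?_⟩
  have hL0 : 0 < Real.log X := by linarith
  have hHL : Real.log X ≤ H := by
    refine le_trans ?_ hH1
    have : 1 ≤ max 1 (4 / τ) := le_max_left _ _
    nlinarith
  have hH0 : 0 < H := by linarith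
  have hs4 : 2 * Real.log (4 * X) / H ≤ τ := by
    rw [div_le_iff₀ hH0]
    have g1 : 4 / τ * Real.log X ≤ H := by
      refine le_trans ?_ hH1
      gcongr
      exact le_max_right _ _
    calc 2 * Real.log (4 * X) ≤ 4 * Real.log X := by linarith
      _ = τ * (4 / τ * Real.log X) := by field_simp
      _ ≤ τ * H := by gcongr
  -- the index of the length
  obtain ⟨t, ht⟩ : ∃ t : ℝ, t = Real.log H / Real.log (Real.log X) := ⟨_, rfl⟩
  have hLL : 0 < Real.log (Real.log X) := Real.log_pos hlog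
  have hHt : Real.log X ^ t = H := by
    rw [Real.rpow_def_of_pos hL0, ht, mul_div_cancel₀ _ hLL.ne', Real.exp_log hH0]
  have ht1 : 1 ≤ t := by
    rw [ht, le_div_iff₀ hLL, one_mul]
    exact Real.log_le_log hL0 hHL
  have htA : t ≤ A := by
    rw [← hHt] at hH2
    exact (Real.rpow_le_rpow_left_iff hlog).1 hH2
  obtain ⟨i, hi⟩ : ∃ i : ℕ, i = ⌊(t - 1) / κ⌋₊ := ⟨_, rfl⟩
  have ht0 : 0 ≤ (t - 1) / κ := div_nonneg (by linarith) hκ.le
  have hiN : i < N := by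
    rw [hi, hN]
    refine Nat.lt_succ_of_le (Nat.floor_le_floor ?_)
    have := le_abs_self A
    gcongr
    linarith
  have hi1 : (i : ℝ) * κ ≤ t - 1 := by
    have := Nat.floor_le ht0
    rw [← hi, le_div_iff₀ hκ] at this
    exact this
  have hi2 : t - 1 ≤ (i : ℝ) * κ + κ := by
    have := (Nat.lt_floor_add_one ((t - 1) / κ)).le
    rw [← hi, div_le_iff₀ hκ] at this
    linarith
  have hm1 : m ≠ 0 := by
    intro h0
    rw [h0] at hc1
    simp at hc1
  have hYpos : 0 < Y := by linarith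
  have hmain : ∀ b : Bool, ∃ x : ℕ, X < x ∧ (x : ℝ) < 3 * X ∧
      δ / 2 ≤ sg b * (∑ j ∈ range m, c j * den (x + l j * Y) H - den x Y) := by
    intro b
    obtain ⟨q, hq⟩ : ∃ q : Fin N × Bool, q = (⟨i, hiN⟩, b) := ⟨_, rfl⟩
    have hq1 : av q = 1 + (i : ℝ) * κ := by rw [hq]
    have hq2 : sg q.2 = sg b := by rw [hq]
    rw [← hq2]
    have hδq : δ ≤ dl q := by rw [hδd]; exact hi0 q
    have hHa : Real.log X ^ av q ≤ H := by
      rw [← hHt, hq1]
      exact Real.rpow_le_rpow_of_exponent_le hlog.le (by linarith)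
    have hHb : H ≤ Real.log X ^ (av q + κ) := by
      rw [← hHt, hq1]
      exact Real.rpow_le_rpow_of_exponent_le hlog.le (by linarith)
    rcases le_or_gt Y (X ^ (9 / 10 : ℝ)) with hY9 | hY9
    · -- intermediate lengths
      have hPp : ∀ p ∈ P q, p.Prime := by
        intro p hp
        have h3 := hP q hp
        rw [Pool.Agent.H378R2.PW, Finset.mem_filter] at h3
        exact h3.2.1
      have hWq : ((∏ p ∈ P q, p : ℕ) : ℝ) ≤ X ^ (θ / 2) := by
        have g1 : ((∏ p ∈ P q, p : ℕ) : ℝ) ≤ W := by exact_mod_cast Nat.le_of_dvd hWp (hWdvd q)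
        have g2 : (W : ℝ) ≤ (W : ℝ) ^ m := le_self_pow₀ (by exact_mod_cast hWp) hm1
        exact g1.trans (g2.trans (hWm.trans (Real.rpow_le_rpow_of_exponent_le hX1.le hε1θ)))
      have hrel1 : |rel (P q) Y - 1| ≤ τ := by
        refine (rel_close hPp (hPB q) hYpos).trans ?_
        rw [div_le_iff₀ hYpos]
        have g3 : X ^ θ = X ^ (θ / 2) * X ^ (θ / 2) := by
          rw [← Real.rpow_add hX0]
          congr 1
          ring
        have g4 : 4 ≤ τ * X ^ (θ / 2) := by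
          rw [div_le_iff₀ hτ] at hXθ
          linarith
        have g5 : 0 < X ^ (θ / 2) := by positivity
        calc 4 * ((∏ p ∈ P q, p : ℕ) : ℝ) ≤ 4 * X ^ (θ / 2) := by gcongr
          _ ≤ (τ * X ^ (θ / 2)) * X ^ (θ / 2) := by gcongr
          _ = τ * X ^ θ := by rw [g3]; ring
          _ ≤ τ * Y := by
              have := hTθ.trans hY1
              gcongr
      have hYm : |∑ n ∈ Icc 1 ⌊3 * X⌋₊, w q n * den n Y - 1| ≤ 5 * τ := by
        have g1 : |∑ n ∈ Icc 1 ⌊3 * X⌋₊, w q n * R n Y - rel (P q) Y| ≤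
            2 * τ + 1 / Real.log X + X ^ (-(1 / 10) : ℝ) := by
          refine MAIN.key (X := X) (L := Real.log X) (ρ := ρ q) (ε' := τ) (P := P q) (w := w q)
            (y := Y) hX1.le (by linarith) rfl (hPB q) (hρ q) (fun n => (hw q n).1) (fun n hn => (hwn q n hn).1) (hws q) hYpos
            hY9 ?_
          have h5 : ((⌊Y⌋₊ : ℕ) : ℝ) ≤ X ^ (9 / 10 : ℝ) := (Nat.floor_le hYpos.le).trans hY9
          have h6 := hwm q ⌊Y⌋₊ h5
          rwa [pow_one] at h6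
        have g2 : ∑ n ∈ Icc 1 ⌊3 * X⌋₊, w q n * R n Y = ∑ n ∈ Icc 1 ⌊3 * X⌋₊, w q n * den n Y :=
          Finset.sum_congr rfl fun n _ => by rw [R_eq _ hYpos.le]
        rw [g2] at g1
        obtain ⟨s1, s2, _⟩ := hsm
        have g3 : ∑ n ∈ Icc 1 ⌊3 * X⌋₊, w q n * den n Y - 1 =
            (∑ n ∈ Icc 1 ⌊3 * X⌋₊, w q n * den n Y - rel (P q) Y) + (rel (P q) Y - 1) := by ring
        rw [g3]
        refine (abs_add_le _ _).trans ?_
        linarith
      obtain ⟨x, h1, h2, h3⟩ := core4 (a := av q) (κ := κ) (P := P q) (w := w q) (ρ := ρ q) (s := fun j => W * nn j) (hav q)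
        (hsg q.2) hδ hτd hX1 hlog (hpowX q) hsm hs4 (hPB q)
        (fun y hy1 hy2 => by have := hdev q y hy1 hy2; linarith) (hρ q) (hw q) (hwn q) (hws q)
        (hwm q) (hwsh q) hlj hX1ε (fun j _ => Dvd.dvd.mul_right (hWdvd q) _) hsc hc1 hcB hHa hHb hYm
      exact ⟨x, h1, h2, by linarith⟩
    · -- long intervals
      obtain ⟨x, h1, h2, h3⟩ := core3 (a := av q) (κ := κ) (δ := δ) (τ := δ / (8 * (|B| + 1))) (B := B)
        (P := P q) (w := w q) (ρ := ρ q) (s := fun j => W * nn j) (hav q)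
        (hsg q.2) hδ rfl hX1 hlog (hpowX q) (by
          have hττ : τ ≤ δ / (8 * (|B| + 1)) := by
            rw [hτd]
            have := abs_nonneg B
            gcongr
            norm_num
          obtain ⟨s1, s2, s3, s5, s6⟩ := hsm
          exact ⟨s1.trans hττ, s2.trans hττ, s3.trans hττ, s5.trans hττ, s6⟩) (by
          refine hs4.trans ?_
          rw [hτd]
          have := abs_nonneg B
          gcongr
          norm_num) (hPB q)
        (fun y hy1 hy2 => by have := hdev q y hy1 hy2; linarith) (by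
          refine (hρ q).trans ?_
          rw [hτd]
          have := abs_nonneg B
          gcongr
          norm_num) (hw q) (hwn q) (hws q)
        (hwm q) (hwsh q) hlj hX1ε (fun j _ => Dvd.dvd.mul_right (hWdvd q) _) hsc hc1 hcB hHa hHb
      refine ⟨x, h1, h2, ?_⟩
      have hx0 : (0 : ℝ) < x := by linarith
      have g1 : |DX.density x Y - 1| ≤ δ / 2 := by
        apply hlong x h1 Y
        · calc (x : ℝ) ^ (0.5836 : ℝ) ≤ (3 * X) ^ (0.5836 : ℝ) := by gcongr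
            _ = 3 ^ (0.5836 : ℝ) * X ^ (0.5836 : ℝ) := Real.mul_rpow (by norm_num) hX0.le
            _ ≤ 3 ^ (1 : ℝ) * X ^ (0.5836 : ℝ) := by
                gcongr
                · norm_num
                · norm_num
            _ ≤ X ^ (1 / 10 : ℝ) * X ^ (0.5836 : ℝ) := by
                rw [Real.rpow_one]
                gcongr
            _ = X ^ (1 / 10 + 0.5836 : ℝ) := by rw [← Real.rpow_add hX0]
            _ ≤ X ^ (9 / 10 : ℝ) := Real.rpow_le_rpow_of_exponent_le hX1.le (by norm_num)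
            _ ≤ Y := hY9.le
        · have g2 : X ^ (1 - ε) ≤ X ^ (1 : ℝ) := Real.rpow_le_rpow_of_exponent_le hX1.le (by linarith)
          rw [Real.rpow_one] at g2
          linarith
      have g2 : den x Y = DX.density x Y := rfl
      rw [← g2] at g1
      have g3 : |sg q.2 * (den x Y - 1)| ≤ δ / 2 := by
        rw [abs_mul]
        have : |sg q.2| = 1 := by rcases hsg q.2 with h | h <;> rw [h] <;> simp
        rw [this, one_mul]
        exact g1
      have g4 := (abs_le.1 g3).2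
      have g5 : sg q.2 * (∑ j ∈ range m, c j * den (x + l j * Y) H - den x Y) =
          sg q.2 * (∑ j ∈ range m, c j * den (x + l j * Y) H - 1) - sg q.2 * (den x Y - 1) := by ring
      rw [g5]
      linarith
  constructor
  · obtain ⟨x, h1, h2, h3⟩ := hmain true
    have h3' : δ / 2 ≤ 1 * (∑ j ∈ range m, c j * den (x + l j * Y) H - den x Y) := h3
    exact ⟨x, h1, h2, by linarith⟩
  · obtain ⟨x, h1, h2, h3⟩ := hmain false
    have h3' : δ / 2 ≤ -1 * (∑ j ∈ range m, c j * den (x + l j * Y) H - den x Y) := h3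
    exact ⟨x, h1, h2, by linarith⟩

end Pool.Agent.U26Z.RS
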