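import Pool.Agent.U26Z.RS.SampR

set_option autoImplicit false

/-!
# The uniform asymptotics are equivalent to the asymptotics for a fixed sample of windows of logarithmic length
-/

namespace Pool.Agent.U26Z.RS

open Finset Filter Topology MeasureTheory ProbabilityTheory Pool.Agent.U26Z.EX

open Pool.Agent.U26Z.DX (primesIn density)

/-- the statement Q1 -/
def Uniform : Prop := ∀ ε δ : ℝ, 0 < ε → 0 < δ → ∀ᶠ x : ℝ in atTop, ∀ H : ℝ, x ^ ε ≤ H → H ≤ x → |density x H - 1| ≤ δ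

/-- the sample of `⌈C log x⌉` windows of length `C log x` has the right number of primes -/
def Sampled (l : ℕ → ℝ) : Prop := ∀ θ ε : ℝ, 0 < θ → 0 < ε → ∀ᶠ C : ℝ in atTop, ∀ᶠ x : ℝ in atTop, ∀ Y : ℝ,
  x ^ θ ≤ Y → Y ≤ x →
    |(∑ j ∈ range ⌈C * Real.log x⌉₊, density (x + l j * Y) (C * Real.log x)) / (⌈C * Real.log x⌉₊ : ℝ) - 1| ≤ ε

/-- relative sampling for one sequence of points -/
def Rel (l : ℕ → ℝ) : Prop := ∀ θ ε : ℝ, 0 < θ → 0 < ε → ∃ C : ℝ, 0 < C ∧ ∀ᶠ x : ℝ in atTop, ∀ Y : ℝ,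
  x ^ θ ≤ Y → Y ≤ x → ∀ H : ℝ, C * Real.log x ≤ H → C * H ≤ Y → ∀ m : ℕ, C * Real.log x ≤ m →
    |∑ j ∈ range m, density (x + l j * Y) H - density x Y * m| ≤ ε * m

theorem rel_use {l : ℕ → ℝ} (h : Rel l) {θ ε : ℝ} (hθ : 0 < θ) (hε : 0 < ε) : ∀ᶠ C : ℝ in atTop,
    ∀ᶠ x : ℝ in atTop, ∀ Y : ℝ, x ^ θ ≤ Y → Y ≤ x →
    |(∑ j ∈ range ⌈C * Real.log x⌉₊, density (x + l j * Y) (C * Real.log x)) / (⌈C * Real.log x⌉₊ : ℝ) - density x Y| ≤ ε := by
  obtain ⟨C₀, hC₀, h1⟩ := h θ ε hθ hε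
  filter_upwards [eventually_ge_atTop C₀] with C hC
  have hCpos : 0 < C := by linarith
  have h2 : ∀ᶠ x : ℝ in atTop, C₀ * (C * Real.log x) ≤ x ^ θ := by
    have h3 := (isLittleO_log_rpow_atTop hθ).bound (show 0 < (C₀ * C)⁻¹ by positivity)
    filter_upwards [h3, eventually_ge_atTop 1] with x h4 h5
    rw [Real.norm_of_nonneg (Real.log_nonneg h5), Real.norm_of_nonneg (by positivity),
      inv_mul_eq_div, le_div_iff₀ (by positivity)] at h4
    linarith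
  filter_upwards [h1, h2, eventually_ge_atTop (3 : ℝ)] with x a1 a2 a3 Y hY1 hY2
  have hlog : 0 < Real.log x := Real.log_pos (by linarith)
  have hceil : C * Real.log x ≤ (⌈C * Real.log x⌉₊ : ℝ) := Nat.le_ceil _
  have hm0 : (0 : ℝ) < (⌈C * Real.log x⌉₊ : ℝ) := lt_of_lt_of_le (by positivity) hceil
  have hle : C₀ * Real.log x ≤ C * Real.log x := by gcongr
  have h5 := a1 Y hY1 hY2 (C * Real.log x) hle (a2.trans hY1) _ (hle.trans hceil)
  rw [div_sub' hm0.ne', abs_div, abs_of_pos hm0, div_le_iff₀ hm0, mul_comm (⌈C * Real.log x⌉₊ : ℝ)]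
  exact h5

theorem uniform_iff {l : ℕ → ℝ} (h : Rel l) : Uniform ↔ Sampled l := by
  constructor
  · intro hU θ ε hθ hε
    have h1 := hU θ (ε / 2) hθ (by positivity)
    filter_upwards [rel_use h hθ (show 0 < ε / 2 by positivity)] with C hC
    filter_upwards [hC, h1] with x a1 a2 Y hY1 hY2
    have b1 := abs_le.1 (a1 Y hY1 hY2)
    have b2 := abs_le.1 (a2 Y hY1 hY2)
    rw [abs_le]
    constructor
    · linarith [b1.1, b2.1]
    · linarith [b1.2, b2.2]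
  · intro hS ε δ hε hδ
    have h1 := rel_use h hε (show 0 < δ / 2 by positivity)
    have h2 := hS ε (δ / 2) hε (by positivity)
    obtain ⟨C, hC1, hC2⟩ := (h1.and h2).exists
    filter_upwards [hC1, hC2] with x a1 a2 H hH1 hH2
    have b1 := abs_le.1 (a1 H hH1 hH2)
    have b2 := abs_le.1 (a2 H hH1 hH2)
    rw [abs_le]
    constructor
    · linarith [b1.2, b2.1]
    · linarith [b1.1, b2.2]

section
variable {Ω : Type*} [MeasurableSpace Ω] {P : Measure Ω} [IsProbabilityMeasure P] {lam : ℕ → Ω → ℝ}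
  (hm : ∀ j, Measurable (lam j)) (hi : iIndepFun lam P) (hu : ∀ j, P.map (lam j) = volume.restrict (Set.Icc 0 1))

include hm hi hu

theorem ae_rel : ∀ᵐ ω ∂P, Rel (fun j => lam j ω) := by
  have h1 : ∀ k l : ℕ, ∃ C : ℝ, 0 < C ∧ ∀ᵐ ω ∂P, ∀ᶠ x : ℝ in atTop, ∀ Y : ℝ,
    x ^ ((1 : ℝ) / (k + 1)) ≤ Y → Y ≤ x → ∀ H : ℝ, C * Real.log x ≤ H → C * H ≤ Y → ∀ m : ℕ, C * Real.log x ≤ m →
      |∑ j ∈ range m, density (x + lam j ω * Y) H - density x Y * m| ≤ (1 : ℝ) / (l + 1) * m := fun k l =>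
    sampR hm hi hu (by positivity) (by positivity)
  choose C hC h2 using h1
  have h3 : ∀ᵐ ω ∂P, ∀ k l : ℕ, ∀ᶠ x : ℝ in atTop, ∀ Y : ℝ,
    x ^ ((1 : ℝ) / (k + 1)) ≤ Y → Y ≤ x → ∀ H : ℝ, C k l * Real.log x ≤ H → C k l * H ≤ Y →
      ∀ m : ℕ, C k l * Real.log x ≤ m →
      |∑ j ∈ range m, density (x + lam j ω * Y) H - density x Y * m| ≤ (1 : ℝ) / (l + 1) * m := by
    rw [ae_all_iff]
    intro k
    rw [ae_all_iff]
    intro l
    exact h2 k l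
  filter_upwards [h3] with ω hω θ ε hθ hε
  obtain ⟨k, hk⟩ := exists_nat_one_div_lt hθ
  obtain ⟨l, hl⟩ := exists_nat_one_div_lt hε
  refine ⟨C k l, hC k l, ?_⟩
  filter_upwards [hω k l, eventually_ge_atTop (1 : ℝ)] with x hx hx1 Y hY1 hY2 H hH1 hH2 m hmm
  refine (hx Y ((Real.rpow_le_rpow_of_exponent_le hx1 hk.le).trans hY1) hY2 H hH1 hH2 m hmm).trans ?_
  gcongr

theorem ae_iff : ∀ᵐ ω ∂P, (Uniform ↔ Sampled (fun j => lam j ω)) := by
  filter_upwards [ae_rel hm hi hu] with ω hω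
  exact uniform_iff hω

end

end Pool.Agent.U26Z.RS
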