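import Pool.Agent.U26Z.EX.Mg

set_option autoImplicit false

/-!
# Exponential moments near zero, with an arbitrary centre
-/

namespace Pool.Agent.U26Z.RS

open Finset Pool.Agent.U26Z.EX

/-- exponential moments slightly above and below the mean -/
theorem mgf_mu {ε s M : ℝ} (hε : 0 < ε) (hs : 0 < s) (hM : 0 < M) : ∃ τ c : ℝ, 0 < τ ∧ 0 < c ∧
    ∀ (Y : ℕ) (W : ℕ → ℝ) (μ : ℝ), (∀ i, 0 ≤ W i) → ∑ i ∈ range Y, Real.exp (s * W i) ≤ M * Y →
      |∑ i ∈ range Y, W i - μ * Y| ≤ ε / 2 * Y →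
        ∑ i ∈ range Y, Real.exp (τ * (W i - μ - ε)) ≤ Real.exp (-c) * Y ∧
        ∑ i ∈ range Y, Real.exp (τ * (μ - ε - W i)) ≤ Real.exp (-c) * Y := by
  obtain ⟨τ, hτ⟩ : ∃ τ, τ = min (s / 2) (ε * s ^ 2 / (32 * M)) := ⟨_, rfl⟩
  have hτ0 : 0 < τ := by rw [hτ]; exact lt_min (by positivity) (by positivity)
  have hτ1 : τ ≤ s / 2 := by rw [hτ]; exact min_le_left _ _
  have hτ2 : τ ≤ ε * s ^ 2 / (32 * M) := by rw [hτ]; exact min_le_right _ _
  have hq : τ ^ 2 * (8 / s ^ 2) * M ≤ τ * ε / 4 := by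
    rw [le_div_iff₀ (by positivity)] at hτ2
    have h1 : τ ^ 2 * (8 / s ^ 2) * M = τ / (4 * s ^ 2) * (τ * (32 * M)) := by field_simp; ring
    rw [h1]
    calc τ / (4 * s ^ 2) * (τ * (32 * M)) ≤ τ / (4 * s ^ 2) * (ε * s ^ 2) := by gcongr
      _ = τ * ε / 4 := by field_simp
  refine ⟨τ, τ * ε / 4, hτ0, by positivity, fun Y W μ hW hexp hsum => ?_⟩
  have hsum1 : ∑ i ∈ range Y, W i ≤ (μ + ε / 2) * Y := by
    have := (abs_le.1 hsum).2
    linarith
  have hsum2 : (μ - ε / 2) * Y ≤ ∑ i ∈ range Y, W i := by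
    have := (abs_le.1 hsum).1
    linarith
  have hY0 : (0 : ℝ) ≤ Y := Nat.cast_nonneg Y
  constructor
  · have h1 : ∑ i ∈ range Y, Real.exp (τ * W i) ≤ Y * Real.exp (τ * (μ + ε / 2) + τ * ε / 4) := by
      calc ∑ i ∈ range Y, Real.exp (τ * W i)
          ≤ ∑ i ∈ range Y, (1 + τ * W i + τ ^ 2 * (8 / s ^ 2) * Real.exp (s * W i)) :=
            Finset.sum_le_sum fun i _ => exp_up hs hτ0.le hτ1 (hW i)
        _ = Y + τ * ∑ i ∈ range Y, W i + τ ^ 2 * (8 / s ^ 2) * ∑ i ∈ range Y, Real.exp (s * W i) := by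
            rw [Finset.sum_add_distrib, Finset.sum_add_distrib, ← Finset.mul_sum, ← Finset.mul_sum,
              Finset.sum_const, Finset.card_range, nsmul_eq_mul, mul_one]
        _ ≤ Y + τ * ((μ + ε / 2) * Y) + τ ^ 2 * (8 / s ^ 2) * (M * Y) := by gcongr
        _ = Y * (1 + τ * (μ + ε / 2) + τ ^ 2 * (8 / s ^ 2) * M) := by ring
        _ ≤ Y * (1 + τ * (μ + ε / 2) + τ * ε / 4) := by gcongr
        _ ≤ _ := by
            apply mul_le_mul_of_nonneg_left _ hY0
            have := Real.add_one_le_exp (τ * (μ + ε / 2) + τ * ε / 4)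
            linarith
    calc ∑ i ∈ range Y, Real.exp (τ * (W i - μ - ε))
        = Real.exp (-(τ * (μ + ε))) * ∑ i ∈ range Y, Real.exp (τ * W i) := by
          rw [Finset.mul_sum]
          refine Finset.sum_congr rfl fun i _ => ?_
          rw [← Real.exp_add]
          congr 1
          ring
      _ ≤ Real.exp (-(τ * (μ + ε))) * (Y * Real.exp (τ * (μ + ε / 2) + τ * ε / 4)) := by gcongr
      _ = (Real.exp (-(τ * (μ + ε))) * Real.exp (τ * (μ + ε / 2) + τ * ε / 4)) * Y := by ring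
      _ = _ := by
          rw [← Real.exp_add]
          congr 2
          ring
  · have h1 : ∑ i ∈ range Y, Real.exp (-(τ * W i)) ≤ Y * Real.exp (-(τ * (μ - ε / 2)) + τ * ε / 4) := by
      calc ∑ i ∈ range Y, Real.exp (-(τ * W i))
          ≤ ∑ i ∈ range Y, (1 - τ * W i + τ ^ 2 * (8 / s ^ 2) * Real.exp (s * W i)) :=
            Finset.sum_le_sum fun i _ => exp_dn hs hτ0.le (hW i)
        _ = Y - τ * ∑ i ∈ range Y, W i + τ ^ 2 * (8 / s ^ 2) * ∑ i ∈ range Y, Real.exp (s * W i) := by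
            rw [Finset.sum_add_distrib, Finset.sum_sub_distrib, ← Finset.mul_sum, ← Finset.mul_sum,
              Finset.sum_const, Finset.card_range, nsmul_eq_mul, mul_one]
        _ ≤ Y - τ * ((μ - ε / 2) * Y) + τ ^ 2 * (8 / s ^ 2) * (M * Y) := by gcongr
        _ = Y * (1 - τ * (μ - ε / 2) + τ ^ 2 * (8 / s ^ 2) * M) := by ring
        _ ≤ Y * (1 - τ * (μ - ε / 2) + τ * ε / 4) := by gcongr
        _ ≤ _ := by
            apply mul_le_mul_of_nonneg_left _ hY0
            have := Real.add_one_le_exp (-(τ * (μ - ε / 2)) + τ * ε / 4)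
            linarith
    calc ∑ i ∈ range Y, Real.exp (τ * (μ - ε - W i))
        = Real.exp (τ * (μ - ε)) * ∑ i ∈ range Y, Real.exp (-(τ * W i)) := by
          rw [Finset.mul_sum]
          refine Finset.sum_congr rfl fun i _ => ?_
          rw [← Real.exp_add]
          congr 1
          ring
      _ ≤ Real.exp (τ * (μ - ε)) * (Y * Real.exp (-(τ * (μ - ε / 2)) + τ * ε / 4)) := by gcongr
      _ = (Real.exp (τ * (μ - ε)) * Real.exp (-(τ * (μ - ε / 2)) + τ * ε / 4)) * Y := by ring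
      _ = _ := by
          rw [← Real.exp_add]
          congr 2
          ring

end Pool.Agent.U26Z.RS
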