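import Pool.Agent.U26Z.RS.Mean2
import Pool.Agent.U26Z.RS.Mg2
import Pool.Agent.U26Z.EX.Fam

set_option autoImplicit false

/-!
# Sampling the primes of an arbitrary interval of length `S ^ θ` at random points
-/

namespace Pool.Agent.U26Z.RS

open Finset Filter Topology MeasureTheory ProbabilityTheory Pool.Agent.U26Z.EX

/-- the density of the primes in intervals of length `S ^ θ` is bounded -/
theorem mu_le {θ : ℝ} (hθ : 0 < θ) : ∃ M : ℝ, 0 < M ∧ ∃ S₀ : ℕ, ∀ S : ℕ, S₀ ≤ S → ∀ Y : ℕ,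
    (S : ℝ) ^ θ ≤ Y → Y ≤ S → MX.pc S Y * Real.log S / Y ≤ M := by
  obtain ⟨C, hC, hbt⟩ := pc_bt
  have tN : Tendsto (fun X : ℕ => (X : ℝ)) atTop atTop := tendsto_natCast_atTop_atTop
  have hev3 : ∀ᶠ S : ℕ in atTop, 9 ≤ (S : ℝ) ^ θ := ((tendsto_rpow_atTop hθ).comp tN).eventually_ge_atTop 9
  obtain ⟨S₁, hS₁⟩ := eventually_atTop.1 hev3
  refine ⟨C / θ, by positivity, S₁ + 2, fun S hS Y hY1 hY2 => ?_⟩
  have h2 := hS₁ S (by omega)
  have hS2 : (2 : ℝ) ≤ S := by exact_mod_cast (by omega : 2 ≤ S)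
  have hS0 : (0 : ℝ) < S := by linarith
  have hL0 : 0 < Real.log (S : ℝ) := Real.log_pos (by linarith)
  have hY9 : (9 : ℝ) ≤ Y := h2.trans hY1
  have hY0 : (0 : ℝ) < Y := by linarith
  have h3 := hbt S Y (by exact_mod_cast hY9) hY2
  have hlogY : θ * Real.log S ≤ Real.log Y := by
    rw [← Real.log_rpow hS0]
    exact Real.log_le_log (by positivity) hY1
  have hlp : 0 < θ * Real.log S := by positivity
  rw [div_le_iff₀ hY0]
  calc MX.pc S Y * Real.log S ≤ C * (Y / Real.log Y) * Real.log S := by gcongr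
    _ ≤ C * (Y / (θ * Real.log S)) * Real.log S := by gcongr
    _ = C / θ * Y := by field_simp

section
variable {Ω : Type*} [MeasurableSpace Ω] {P : Measure Ω} [IsProbabilityMeasure P] {lam : ℕ → Ω → ℝ}
  (hm : ∀ j, Measurable (lam j)) (hi : iIndepFun lam P) (hu : ∀ j, P.map (lam j) = volume.restrict (Set.Icc 0 1))

include hm hi hu

/-- **the average of the number of primes at random points** -/
theorem famR {θ ε : ℝ} (hθ : 0 < θ) (hε : 0 < ε) : ∃ A η : ℝ, 0 < A ∧ 0 < η ∧ ∀ᵐ ω ∂P, ∀ᶠ S : ℕ in atTop, ∀ Y : ℕ,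
    (S : ℝ) ^ θ ≤ Y → Y ≤ S → ∀ H : ℕ, Real.log S ≤ H → (H : ℝ) ≤ η * Y → ∀ m : ℕ, A * Real.log S ≤ m →
      |∑ j ∈ range m, MX.pc (S + ⌊lam j ω * Y⌋₊) H * Real.log S / H - MX.pc S Y * Real.log S / Y * m| ≤ ε * m := by
  classical
  obtain ⟨s, hs, S₁, hem⟩ := em' (θ := θ) (κ := 1) hθ one_pos
  obtain ⟨η, hη0, hη1, S₂, hmean⟩ := mean2 hθ (show 0 < ε / 2 by positivity)
  obtain ⟨τ, c, hτ, hc, hboth⟩ := mgf_mu hε hs (show (0 : ℝ) < 48 by norm_num)
  obtain ⟨T, hT⟩ : ∃ T : ℕ → Finset (ℕ × ℕ), T = fun S : ℕ => ((Icc 1 S) ×ˢ (Icc 1 S)).filter (fun q : ℕ × ℕ =>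
    (S : ℝ) ^ θ ≤ (q.1 : ℝ) ∧ Real.log S ≤ (q.2 : ℝ) ∧ (q.2 : ℝ) ≤ η * (q.1 : ℝ)) := ⟨_, rfl⟩
  have hTc : ∀ X, (T X).card ≤ (X + 1) ^ 2 := by
    intro X
    rw [hT]
    refine (Finset.card_filter_le _ _).trans ?_
    rw [Finset.card_product, Nat.card_Icc, Nat.add_sub_cancel]
    nlinarith
  have key : ∀ X, max (max S₁ S₂) 1 ≤ X → ∀ i ∈ T X, 0 < i.1 ∧
      ∑ a ∈ range i.1, Real.exp (τ * (MX.pc (X + a) i.2 * Real.log X / i.2 - MX.pc X i.1 * Real.log X / i.1 - ε)) ≤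
        Real.exp (-c) * i.1 ∧
      ∑ a ∈ range i.1, Real.exp (τ * (MX.pc X i.1 * Real.log X / i.1 - ε - MX.pc (X + a) i.2 * Real.log X / i.2)) ≤
        Real.exp (-c) * i.1 := by
    intro X hX i hiT
    rw [hT] at hiT
    simp only [mem_filter, mem_product, mem_Icc] at hiT
    obtain ⟨⟨⟨h1, h2⟩, h3, h4⟩, h5, h6, h7⟩ := hiT
    have hY0 : (0 : ℝ) < i.1 := by exact_mod_cast (by omega : 0 < i.1)
    have a1 := hem X ((le_max_left _ _).trans ((le_max_left _ _).trans hX)) i.1 h5 i.2 (by rw [one_mul]; exact h6)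
    have a2 := hmean X ((le_max_right _ _).trans ((le_max_left _ _).trans hX)) i.1 h5 h2 i.2 h3 h7
    have a3 := hboth i.1 (fun a => MX.pc (X + a) i.2 * Real.log X / i.2) (MX.pc X i.1 * Real.log X / i.1) (fun a => by
      have := Real.log_natCast_nonneg X
      positivity) a1 (by
        have e1 : (MX.pc X i.1 : ℝ) * Real.log X / i.1 * i.1 = MX.pc X i.1 * Real.log X := by field_simp
        rw [e1]
        exact a2)
    exact ⟨by omega, a3.1, a3.2⟩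
  have b1 := bc_all hm hi hu T hTc Prod.fst
    (fun X i a => τ * (MX.pc (X + a) i.2 * Real.log X / i.2 - MX.pc X i.1 * Real.log X / i.1 - ε)) (c := c) (A := 4 / c) hc
    (by field_simp; exact le_rfl) _ (fun X hX i hiT => ⟨(key X hX i hiT).1, (key X hX i hiT).2.1⟩)
  have b2 := bc_all hm hi hu T hTc Prod.fst
    (fun X i a => τ * (MX.pc X i.1 * Real.log X / i.1 - ε - MX.pc (X + a) i.2 * Real.log X / i.2)) (c := c) (A := 4 / c) hc
    (by field_simp; exact le_rfl) _ (fun X hX i hiT => ⟨(key X hX i hiT).1, (key X hX i hiT).2.2⟩)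
  refine ⟨4 / c, η, by positivity, hη0, ?_⟩
  filter_upwards [b1, b2] with ω hω1 hω2
  filter_upwards [hω1, hω2, eventually_ge_atTop 3] with S h1 h2 hS3 Y hY1 hY2 H hH1 hH2 m hmm
  have hS3r : (3 : ℝ) ≤ S := by exact_mod_cast hS3
  have hS1 : (1 : ℝ) ≤ S := by linarith
  have hYpos : (0 : ℝ) < Y := lt_of_lt_of_le (by positivity) hY1
  have hY0 : 0 < Y := by exact_mod_cast hYpos
  have hlogS : 0 < Real.log (S : ℝ) := Real.log_pos (by linarith)
  have hHpos : (0 : ℝ) < H := lt_of_lt_of_le hlogS hH1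
  have hH0 : 0 < H := by exact_mod_cast hHpos
  have hHS : H ≤ S := by
    have : (H : ℝ) ≤ Y := hH2.trans (mul_le_of_le_one_left hYpos.le hη1)
    have : H ≤ Y := by exact_mod_cast this
    omega
  have hmem : (Y, H) ∈ T S := by
    rw [hT]
    simp only [mem_filter, mem_product, mem_Icc]
    exact ⟨⟨⟨hY0, hY2⟩, hH0, hHS⟩, hY1, hH1, hH2⟩
  have c1 := h1 (Y, H) hmem m hmm
  have c2 := h2 (Y, H) hmem m hmm
  simp only at c1 c2
  obtain ⟨μ, hμ⟩ : ∃ μ : ℝ, μ = MX.pc S Y * Real.log S / Y := ⟨_, rfl⟩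
  rw [← hμ] at c1 c2 ⊢
  obtain ⟨V, hV⟩ : ∃ V : ℝ, V = ∑ j ∈ range m, MX.pc (S + ⌊lam j ω * Y⌋₊) H * Real.log S / H := ⟨_, rfl⟩
  have e1 : ∑ j ∈ range m, τ * (MX.pc (S + ⌊lam j ω * Y⌋₊) H * Real.log S / H - μ - ε) = τ * (V - (μ + ε) * m) := by
    rw [← Finset.mul_sum, hV]
    congr 1
    rw [Finset.sum_sub_distrib, Finset.sum_sub_distrib, Finset.sum_const, Finset.sum_const, Finset.card_range,
      nsmul_eq_mul, nsmul_eq_mul]
    ring
  have e2 : ∑ j ∈ range m, τ * (μ - ε - MX.pc (S + ⌊lam j ω * Y⌋₊) H * Real.log S / H) = τ * ((μ - ε) * m - V) := by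
    rw [← Finset.mul_sum, hV]
    congr 1
    rw [Finset.sum_sub_distrib, Finset.sum_sub_distrib, Finset.sum_const, Finset.sum_const, Finset.card_range,
      nsmul_eq_mul, nsmul_eq_mul]
    ring
  rw [e1] at c1
  rw [e2] at c2
  rw [← hV]
  have d1 : V - (μ + ε) * m < 0 := by
    by_contra hcon
    push Not at hcon
    have := mul_nonneg hτ.le hcon
    linarith
  have d2 : (μ - ε) * m - V < 0 := by
    by_contra hcon
    push Not at hcon
    have := mul_nonneg hτ.le hcon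
    linarith
  rw [abs_le]
  constructor <;> linarith

end

end Pool.Agent.U26Z.RS
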