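import Pool.Agent.U26Z.RS.SampR

set_option autoImplicit false

/-!
# A positive proportion of the random points is followed by a prime, in every interval of positive density
-/

namespace Pool.Agent.U26Z.RS

open Finset Filter Topology MeasureTheory ProbabilityTheory Pool.Agent.U26Z.EX

open Pool.Agent.U26Z.DX (primesIn density)

/-- a positive proportion of positive values -/
theorem frac_u {s M u : ℝ} (hs : 0 < s) (hM : 0 < M) (hu : 0 < u) : ∃ c : ℝ, 0 < c ∧ ∀ (Y : ℕ) (W Z : ℕ → ℝ),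
    (∀ i, 0 ≤ W i) → (∀ i, Z i = 0 ∨ Z i = 1) → (∀ i, Z i = 0 → W i = 0) →
    ∑ i ∈ range Y, Real.exp (s * W i) ≤ M * Y → u * Y ≤ ∑ i ∈ range Y, W i →
    ∑ i ∈ range Y, Real.exp (c - Z i) ≤ Real.exp (-c) * Y := by
  obtain ⟨c₀, hc₀⟩ : ∃ c₀, c₀ = u ^ 2 * s ^ 2 / (2 * M) := ⟨_, rfl⟩
  have hc0 : 0 < c₀ := by rw [hc₀]; positivity
  refine ⟨c₀ / 4, by positivity, fun Y W Z hW hZ hWZ hexp hsum => ?_⟩
  have hY0 : (0 : ℝ) ≤ Y := Nat.cast_nonneg Y
  have hZ0 : ∀ i, 0 ≤ Z i := fun i => by rcases hZ i with h | h <;> rw [h] <;> norm_num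
  have h1 : c₀ * Y ≤ ∑ i ∈ range Y, Z i := by
    have h2 : (∑ i ∈ range Y, W i) ^ 2 ≤ (∑ i ∈ range Y, Z i ^ 2) * ∑ i ∈ range Y, W i ^ 2 := by
      have h3 := Finset.sum_mul_sq_le_sq_mul_sq (range Y) Z W
      have h4 : ∑ i ∈ range Y, Z i * W i = ∑ i ∈ range Y, W i := by
        refine Finset.sum_congr rfl fun i _ => ?_
        rcases hZ i with h | h
        · rw [h, hWZ i h, mul_zero]
        · rw [h, one_mul]
      rwa [h4] at h3
    have h3 : ∑ i ∈ range Y, Z i ^ 2 = ∑ i ∈ range Y, Z i := by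
      refine Finset.sum_congr rfl fun i _ => ?_
      rcases hZ i with h | h <;> rw [h] <;> norm_num
    have h4 : ∑ i ∈ range Y, W i ^ 2 ≤ 2 / s ^ 2 * (M * Y) := by
      calc ∑ i ∈ range Y, W i ^ 2 ≤ ∑ i ∈ range Y, 2 / s ^ 2 * Real.exp (s * W i) :=
            Finset.sum_le_sum fun i _ => sq_le_exp hs (hW i)
        _ = 2 / s ^ 2 * ∑ i ∈ range Y, Real.exp (s * W i) := by rw [Finset.mul_sum]
        _ ≤ _ := by gcongr
    have hZs : 0 ≤ ∑ i ∈ range Y, Z i := Finset.sum_nonneg fun i _ => hZ0 i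
    rw [h3] at h2
    rcases hY0.eq_or_lt with h5 | h5
    · rw [← h5, mul_zero]
      exact hZs
    · have h6 : (u * (Y : ℝ)) ^ 2 ≤ (∑ i ∈ range Y, Z i) * (2 / s ^ 2 * (M * Y)) := by
        calc (u * (Y : ℝ)) ^ 2 ≤ (∑ i ∈ range Y, W i) ^ 2 := by gcongr
          _ ≤ (∑ i ∈ range Y, Z i) * ∑ i ∈ range Y, W i ^ 2 := h2
          _ ≤ _ := by gcongr
      have h7 : c₀ * Y * (2 / s ^ 2 * (M * Y)) = (u * (Y : ℝ)) ^ 2 := by
        rw [hc₀]
        field_simp
      rw [← h7] at h6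
      exact le_of_mul_le_mul_right h6 (by positivity)
  have h2 : ∑ i ∈ range Y, Real.exp (-Z i) ≤ Y * Real.exp (-(c₀ / 2)) := by
    have h3 : ∀ i, Real.exp (-Z i) ≤ 1 - 1 / 2 * Z i := by
      intro i
      rcases hZ i with h | h
      · rw [h]
        simp
      · rw [h]
        have h4 : Real.exp (-1) ≤ 1 / 2 := by
          rw [Real.exp_neg]
          have h5 : (2 : ℝ) ≤ Real.exp 1 := by have := Real.exp_one_gt_d9; linarith
          have := inv_anti₀ (by norm_num : (0 : ℝ) < 2) h5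
          linarith
        linarith
    calc ∑ i ∈ range Y, Real.exp (-Z i) ≤ ∑ i ∈ range Y, (1 - 1 / 2 * Z i) := Finset.sum_le_sum fun i _ => h3 i
      _ = Y - 1 / 2 * ∑ i ∈ range Y, Z i := by
          rw [Finset.sum_sub_distrib, ← Finset.mul_sum, Finset.sum_const, Finset.card_range, nsmul_eq_mul, mul_one]
      _ ≤ Y - 1 / 2 * (c₀ * Y) := by gcongr
      _ = Y * (1 - c₀ / 2) := by ring
      _ ≤ _ := by
          apply mul_le_mul_of_nonneg_left _ hY0
          have := Real.add_one_le_exp (-(c₀ / 2))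
          linarith
  calc ∑ i ∈ range Y, Real.exp (c₀ / 4 - Z i) = Real.exp (c₀ / 4) * ∑ i ∈ range Y, Real.exp (-Z i) := by
        rw [Finset.mul_sum]
        refine Finset.sum_congr rfl fun i _ => ?_
        rw [← Real.exp_add]
        congr 1
    _ ≤ Real.exp (c₀ / 4) * (Y * Real.exp (-(c₀ / 2))) := by gcongr
    _ = (Real.exp (c₀ / 4) * Real.exp (-(c₀ / 2))) * Y := by ring
    _ = _ := by
        rw [← Real.exp_add]
        congr 2
        ring

section
variable {Ω : Type*} [MeasurableSpace Ω] {P : Measure Ω} [IsProbabilityMeasure P] {lam : ℕ → Ω → ℝ}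
  (hm : ∀ j, Measurable (lam j)) (hi : iIndepFun lam P) (hu : ∀ j, P.map (lam j) = volume.restrict (Set.Icc 0 1))

include hm hi hu

open Classical in
/-- **a positive proportion of the random points is followed by a prime** -/
theorem fam2R {θ u κ : ℝ} (hθ : 0 < θ) (hu0 : 0 < u) (hκ : 0 < κ) : ∃ c A : ℝ, 0 < c ∧ 0 < A ∧
    ∀ᵐ ω ∂P, ∀ᶠ S : ℕ in atTop, ∀ Y : ℕ, (S : ℝ) ^ θ ≤ Y → Y ≤ S → u * Y ≤ MX.pc S Y * Real.log S →
      ∀ m : ℕ, A * Real.log S ≤ m →
      c * m ≤ ((range m).filter (fun j => 1 ≤ MX.pc (S + ⌊lam j ω * Y⌋₊) ⌊κ * Real.log S⌋₊)).card := by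
  obtain ⟨s, hs, S₁, hem⟩ := em' (θ := θ) (κ := κ / 2) hθ (by positivity)
  obtain ⟨η, hη0, hη1, S₂, hmean⟩ := mean2 hθ (show (0 : ℝ) < u / 2 by positivity)
  obtain ⟨c, hc0, hfrac⟩ := frac_u hs (show (0 : ℝ) < 48 by norm_num) (show 0 < u / 2 by positivity)
  have tN : Tendsto (fun X : ℕ => (X : ℝ)) atTop atTop := tendsto_natCast_atTop_atTop
  have tL : Tendsto (fun X : ℕ => Real.log (X : ℝ)) atTop atTop := Real.tendsto_log_atTop.comp tN
  have hev1 : ∀ᶠ S : ℕ in atTop, 2 ≤ κ * Real.log S := (tL.const_mul_atTop hκ).eventually_ge_atTop 2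
  have hev2 : ∀ᶠ S : ℕ in atTop, κ * Real.log S ≤ η * (S : ℝ) ^ θ := by
    have h1 := ((isLittleO_log_rpow_atTop hθ).comp_tendsto tN).bound
      (by positivity : (0 : ℝ) < η / κ)
    filter_upwards [h1, tL.eventually_ge_atTop 1] with X h2 h3
    simp only [Function.comp_def] at h2
    rw [Real.norm_of_nonneg (by positivity), Real.norm_of_nonneg (by positivity)] at h2
    calc κ * Real.log X ≤ κ * (η / κ * (X : ℝ) ^ θ) := by gcongr
      _ = _ := by field_simp
  obtain ⟨S₃, hS₃⟩ := eventually_atTop.1 (hev1.and hev2)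
  obtain ⟨T, hT⟩ : ∃ T : ℕ → Finset ℕ, T = fun S : ℕ => (Icc 1 S).filter (fun Y : ℕ => (S : ℝ) ^ θ ≤ (Y : ℝ) ∧
    u * Y ≤ MX.pc S Y * Real.log S) := ⟨_, rfl⟩
  have hTc : ∀ X, (T X).card ≤ (X + 1) ^ 2 := by
    intro X
    rw [hT]
    refine (Finset.card_filter_le _ _).trans ?_
    rw [Nat.card_Icc, Nat.add_sub_cancel]
    nlinarith
  obtain ⟨Z, hZ⟩ : ∃ Z : ℕ → ℕ → ℝ, Z = fun S a => if 1 ≤ MX.pc (S + a) ⌊κ * Real.log S⌋₊ then 1 else 0 := ⟨_, rfl⟩
  have b1 := bc_all hm hi hu T hTc (fun Y => Y) (fun X _ a => c - Z X a) (c := c) (A := 4 / c) hc0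
    (by field_simp; exact le_rfl) (max (max S₁ S₂) (max S₃ 1)) (by
      intro X hX Y hY
      rw [hT] at hY
      simp only [mem_filter, mem_Icc] at hY
      obtain ⟨⟨h1, h2⟩, h3, h3'⟩ := hY
      refine ⟨by omega, ?_⟩
      obtain ⟨h4, h5⟩ := hS₃ X ((le_max_left _ _).trans ((le_max_right _ _).trans hX))
      have hfl : (⌊κ * Real.log X⌋₊ : ℝ) ≤ κ * Real.log X := Nat.floor_le (by linarith)
      have hfl2 : κ * Real.log X < ⌊κ * Real.log X⌋₊ + 1 := Nat.lt_floor_add_one _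
      have a1 := hem X ((le_max_left _ _).trans ((le_max_left _ _).trans hX)) Y h3 ⌊κ * Real.log X⌋₊ (by linarith)
      have a2 := hmean X ((le_max_right _ _).trans ((le_max_left _ _).trans hX)) Y h3 h2 ⌊κ * Real.log X⌋₊
        (Nat.le_floor (by push_cast; linarith)) (by
          refine hfl.trans (h5.trans ?_)
          gcongr)
      have a3 := hfrac Y
        (fun a => MX.pc (X + a) ⌊κ * Real.log X⌋₊ * Real.log X / ⌊κ * Real.log X⌋₊) (Z X) (fun a => by
          have := Real.log_natCast_nonneg X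
          positivity) (fun a => by
          rw [hZ]
          simp only
          split_ifs
          · right; rfl
          · left; rfl) (fun a ha => by
          rw [hZ] at ha
          simp only at ha
          split_ifs at ha with h6
          · exact absurd ha one_ne_zero
          · have h7 : MX.pc (X + a) ⌊κ * Real.log X⌋₊ = 0 := by omega
            rw [h7]
            simp) a1 (by
              have := (abs_le.1 a2).1
              linarith)
      exact a3)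
  refine ⟨c, 4 / c, hc0, by positivity, ?_⟩
  filter_upwards [b1] with ω hω
  filter_upwards [hω, eventually_ge_atTop 1] with S h1 hS1 Y hY1 hY2 hYu m hmm
  have hS1r : (1 : ℝ) ≤ S := by exact_mod_cast hS1
  have hYpos : (0 : ℝ) < Y := lt_of_lt_of_le (by positivity) hY1
  have hY0 : 0 < Y := by exact_mod_cast hYpos
  have hmem : Y ∈ T S := by
    rw [hT]
    simp only [mem_filter, mem_Icc]
    exact ⟨⟨hY0, hY2⟩, hY1, hYu⟩
  have c1 := h1 Y hmem m hmm
  have e1 : ∑ j ∈ range m, (c - Z S ⌊lam j ω * Y⌋₊) = c * m -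
      ((range m).filter (fun j => 1 ≤ MX.pc (S + ⌊lam j ω * Y⌋₊) ⌊κ * Real.log S⌋₊)).card := by
    rw [Finset.sum_sub_distrib, Finset.sum_const, Finset.card_range, nsmul_eq_mul, hZ]
    simp only
    rw [Finset.sum_boole]
    ring
  rw [e1] at c1
  linarith

open Classical in
/-- **a positive proportion of the random points is followed by a prime, all real parameters** -/
theorem samp2R {θ u K : ℝ} (hθ : 0 < θ) (hu0 : 0 < u) (hK : 0 < K) : ∃ c C : ℝ, 0 < c ∧ 0 < C ∧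
    ∀ᵐ ω ∂P, ∀ᶠ x : ℝ in atTop, ∀ Y : ℝ, x ^ θ ≤ Y → Y ≤ x → u ≤ density x Y → ∀ m : ℕ, C * Real.log x ≤ m →
      c * m ≤ ((range m).filter (fun j => ∃ p : ℕ, p.Prime ∧ x + lam j ω * Y < p ∧
        (p : ℝ) < x + lam j ω * Y + K * Real.log (x + lam j ω * Y))).card := by
  obtain ⟨c, A, hc, hA, hfam⟩ := fam2R hm hi hu (show 0 < θ / 2 by positivity) (show 0 < u / 2 by positivity)
    (show 0 < K / 2 by positivity)
  refine ⟨c, 2 * A, hc, by positivity, ?_⟩
  filter_upwards [hfam, ae_Icc hm hu] with ω hω hI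
  have tF : Tendsto (fun x : ℝ => ⌊x⌋₊ + 3) atTop atTop :=
    (tendsto_add_atTop_nat 3).comp tendsto_nat_floor_atTop
  have hev1 := tF.eventually hω
  have hev3 : ∀ᶠ x : ℝ in atTop, 2 ^ (θ / 2) + 1 ≤ (x : ℝ) ^ (θ / 2) :=
    (tendsto_rpow_atTop (show (0 : ℝ) < θ / 2 by positivity)).eventually_ge_atTop _
  have hev4 : ∀ᶠ x : ℝ in atTop, Real.log x ≤ u / 24 * x ^ θ := by
    have h1 := (isLittleO_log_rpow_atTop hθ).bound (show (0 : ℝ) < u / 24 by positivity)
    filter_upwards [h1, eventually_ge_atTop 1] with X h2 h3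
    rwa [Real.norm_of_nonneg (Real.log_nonneg h3), Real.norm_of_nonneg (by positivity)] at h2
  filter_upwards [hev1, hev3, hev4, eventually_ge_atTop (4 : ℝ),
    Real.tendsto_log_atTop.eventually_ge_atTop (2 * (K / 2 + 3) / K + 2)] with x h1 h3 hx24 h4 h5 Y hY1 hY2 hYu m hmm
  have hx0 : 0 < x := by linarith
  have hYpos : 0 < Y := lt_of_lt_of_le (by positivity) hY1
  obtain ⟨S, hS⟩ : ∃ S, S = ⌊x⌋₊ + 3 := ⟨_, rfl⟩
  obtain ⟨Y', hY'⟩ : ∃ Y', Y' = ⌊Y⌋₊ := ⟨_, rfl⟩
  rw [← hS] at h1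
  have hSx : (S : ℝ) ≤ x + 3 := by
    have := Nat.floor_le hx0.le
    rw [hS]
    push_cast
    linarith
  have hSx2 : x < S := by
    have := Nat.lt_floor_add_one x
    rw [hS]
    push_cast
    linarith
  have hS0 : (0 : ℝ) < S := by linarith
  have hYY : (Y' : ℝ) ≤ Y := by rw [hY']; exact Nat.floor_le hYpos.le
  have hYY2 : Y < Y' + 1 := by rw [hY']; exact Nat.lt_floor_add_one Y
  have hlogS : Real.log (S : ℝ) ≤ Real.log x + 1 := by
    have h6 : Real.log (S : ℝ) ≤ Real.log (2 * x) := Real.log_le_log hS0 (by linarith)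
    rw [Real.log_mul (by norm_num) hx0.ne'] at h6
    have := Real.log_two_lt_d9
    linarith
  have hlogS2 : Real.log x ≤ Real.log (S : ℝ) := Real.log_le_log hx0 hSx2.le
  have hlogx : 2 ≤ Real.log x := by
    have : 0 ≤ 2 * (K / 2 + 3) / K := by positivity
    linarith
  have c1 : (S : ℝ) ^ (θ / 2) ≤ Y' := by
    have h6 : (S : ℝ) ^ (θ / 2) ≤ 2 ^ (θ / 2) * x ^ (θ / 2) := by
      calc (S : ℝ) ^ (θ / 2) ≤ (2 * x) ^ (θ / 2) := by
            apply Real.rpow_le_rpow hS0.le (by linarith) (by positivity)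
        _ = 2 ^ (θ / 2) * x ^ (θ / 2) := Real.mul_rpow (by norm_num) hx0.le
    have h7 : x ^ θ = x ^ (θ / 2) * x ^ (θ / 2) := by
      rw [← Real.rpow_add hx0]
      congr 1
      ring
    have h8 : (2 ^ (θ / 2) + 1) * x ^ (θ / 2) ≤ Y := by
      refine le_trans ?_ hY1
      rw [h7]
      gcongr
    have h9 : 1 ≤ x ^ (θ / 2) := Real.one_le_rpow (by linarith) (by positivity)
    linarith
  have c2 : Y' ≤ S := by
    rw [hY', hS]
    have := Nat.floor_le_floor hY2
    omega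
  have c3 : A * Real.log S ≤ m := by
    refine le_trans ?_ hmm
    calc A * Real.log S ≤ A * (Real.log x + 1) := by gcongr
      _ ≤ A * (2 * Real.log x) := by gcongr; linarith
      _ = _ := by ring
  have c4 : u / 2 * Y' ≤ MX.pc S Y' * Real.log S := by
    -- the primes of `(x, x + Y]`
    have h6 : primesIn x Y ≤ MX.pc S Y' + 3 := by
      classical
      have hfl : ⌊x + Y⌋₊ ≤ S + Y' := by
        have : ⌊x + Y⌋₊ < S + Y' + 1 := by
          rw [Nat.floor_lt (by positivity)]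
          push_cast
          linarith
        omega
      have h7 : (Ioc ⌊x⌋₊ ⌊x + Y⌋₊).filter Nat.Prime ⊆ Ioc ⌊x⌋₊ (⌊x⌋₊ + 3) ∪ (Ioc S (S + Y')).filter Nat.Prime := by
        intro p hp
        rw [mem_filter, mem_Ioc] at hp
        rw [mem_union, mem_filter, mem_Ioc, mem_Ioc]
        by_cases h : p ≤ ⌊x⌋₊ + 3
        · left; exact ⟨hp.1.1, h⟩
        · right; exact ⟨⟨by omega, by omega⟩, hp.2⟩
      have h8 := (card_le_card h7).trans (card_union_le _ _)
      rw [Nat.card_Ioc] at h8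
      unfold primesIn MX.pc
      omega
    have h7 : (primesIn x Y : ℝ) ≤ MX.pc S Y' + 3 := by exact_mod_cast h6
    have h8 : u * Y ≤ primesIn x Y * Real.log x := by
      unfold density at hYu
      rwa [le_div_iff₀ hYpos] at hYu
    have h9 : (primesIn x Y : ℝ) * Real.log x ≤ (MX.pc S Y' + 3) * Real.log S := by gcongr
    have h10 : 3 * Real.log S ≤ u / 2 * Y := by
      have h11 : u / 24 * x ^ θ ≤ u / 24 * Y := by gcongr
      have h12 : Real.log (S : ℝ) ≤ 2 * Real.log x := by linarith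
      have h13 : 0 ≤ u * Y := by positivity
      linarith
    have h11 : u / 2 * (Y' : ℝ) ≤ u / 2 * Y := by gcongr
    linarith
  have hmain := h1 Y' c1 c2 c4 m c3
  refine hmain.trans ?_
  have hsub : (range m).filter (fun j => 1 ≤ MX.pc (S + ⌊lam j ω * Y'⌋₊) ⌊K / 2 * Real.log S⌋₊) ⊆
      (range m).filter (fun j => ∃ p : ℕ, p.Prime ∧ x + lam j ω * Y < p ∧
        (p : ℝ) < x + lam j ω * Y + K * Real.log (x + lam j ω * Y)) := by
    intro j hj
    rw [mem_filter] at hj ⊢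
    refine ⟨hj.1, ?_⟩
    obtain ⟨hj0, hj1⟩ := hI j
    have hpos := hj.2
    unfold MX.pc at hpos
    obtain ⟨p, hp⟩ := Finset.card_pos.1 (by omega : 0 < ((Ioc (S + ⌊lam j ω * Y'⌋₊) (S + ⌊lam j ω * Y'⌋₊ +
      ⌊K / 2 * Real.log S⌋₊)).filter Nat.Prime).card)
    rw [mem_filter, mem_Ioc] at hp
    obtain ⟨⟨hp1, hp2⟩, hp3⟩ := hp
    obtain ⟨hc1, hc2⟩ := close (x := x) (Y := Y) hx0.le hYpos.le hj0 hj1
    rw [← hY'] at hc1 hc2
    have e1 : ((S + ⌊lam j ω * Y'⌋₊ : ℕ) : ℝ) = ((⌊x⌋₊ + ⌊lam j ω * Y'⌋₊ : ℕ) : ℝ) + 3 := by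
      rw [hS]
      push_cast
      ring
    have hp1' : ((S + ⌊lam j ω * Y'⌋₊ : ℕ) : ℝ) < p := by exact_mod_cast hp1
    have hp2' : (p : ℝ) ≤ ((S + ⌊lam j ω * Y'⌋₊ : ℕ) : ℝ) + ⌊K / 2 * Real.log S⌋₊ := by exact_mod_cast hp2
    rw [e1] at hp1' hp2'
    have h7 : 0 ≤ lam j ω * Y := by positivity
    refine ⟨p, hp3, by linarith, ?_⟩
    have hfl : (⌊K / 2 * Real.log S⌋₊ : ℝ) ≤ K / 2 * Real.log S := Nat.floor_le (by
      have : 0 ≤ Real.log (S : ℝ) := Real.log_nonneg (by linarith)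
      positivity)
    have hℓ : Real.log x ≤ Real.log (x + lam j ω * Y) := Real.log_le_log hx0 (by linarith)
    have h8 : K / 2 * Real.log S + 3 < K * Real.log x := by
      have h9 : 2 * (K / 2 + 3) / K < Real.log x := by linarith
      rw [div_lt_iff₀ hK] at h9
      have h10 : K / 2 * Real.log S ≤ K / 2 * (Real.log x + 1) := by gcongr
      linarith
    have h9 : K * Real.log x ≤ K * Real.log (x + lam j ω * Y) := by gcongr
    linarith
  exact_mod_cast Finset.card_le_card hsub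

end

end Pool.Agent.U26Z.RS
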