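import Pool.Agent.U26Z.EX.Mean

set_option autoImplicit false

/-!
# The mean of the number of primes in short windows inside an arbitrary interval of length `S ^ θ`
-/

namespace Pool.Agent.U26Z.RS

open Finset Filter Topology Pool.Agent.U26Z.EX

/-- the Brun–Titchmarsh bound -/
theorem pc_bt : ∃ C : ℝ, 0 < C ∧ ∀ n w : ℕ, 9 ≤ w → w ≤ n → (MX.pc n w : ℝ) ≤ C * (w / Real.log w) := by
  classical
  obtain ⟨C, hC, h⟩ := Rb_le
  refine ⟨C, hC, fun n w hw hn => le_trans ?_ (h w n hw)⟩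
  have h1 : MX.pc n w ≤ (MX.Rb w w n).card := by
    unfold MX.pc
    apply Finset.card_le_card_of_injOn (fun p => p - n)
    · intro p hp
      rw [mem_coe, mem_filter, mem_Ioc] at hp
      rw [mem_coe]
      unfold MX.Rb
      rw [mem_filter, mem_Icc]
      refine ⟨⟨by show 1 ≤ p - n; omega, by show p - n ≤ w; omega⟩, ?_⟩
      have e1 : n + (p - n) = p := by omega
      show Nat.Coprime (MX.Wp w) (n + (p - n))
      rw [e1]
      exact MX.Wp_cop w hp.2 (by omega)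
    · intro a ha b hb hab
      rw [mem_coe, mem_filter, mem_Ioc] at ha hb
      simp only at hab
      omega
  exact_mod_cast h1

/-- few primes in windows which are short against `Y` -/
theorem small {θ δ : ℝ} (hθ : 0 < θ) (hδ : 0 < δ) : ∃ η : ℝ, 0 < η ∧ η ≤ 1 ∧ ∃ S₀ : ℕ, ∀ S : ℕ, S₀ ≤ S → ∀ Y : ℕ,
    (S : ℝ) ^ θ ≤ Y → Y ≤ S → ∀ n : ℕ, S ≤ n → ∀ H : ℕ, (H : ℝ) ≤ η * Y → MX.pc n H * Real.log S ≤ δ * Y := by
  obtain ⟨C, hC, hbt⟩ := pc_bt
  obtain ⟨η, hη⟩ : ∃ η, η = min 1 (δ * θ / (2 * C)) := ⟨_, rfl⟩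
  have hη0 : 0 < η := by rw [hη]; exact lt_min one_pos (by positivity)
  have hη1 : η ≤ 1 := by rw [hη]; exact min_le_left _ _
  have hη2 : η ≤ δ * θ / (2 * C) := by rw [hη]; exact min_le_right _ _
  have tN : Tendsto (fun X : ℕ => (X : ℝ)) atTop atTop := tendsto_natCast_atTop_atTop
  have hev2 : ∀ᶠ S : ℕ in atTop, Real.log S ≤ δ * (S : ℝ) ^ (θ / 2) := by
    have h1 := ((isLittleO_log_rpow_atTop (show (0 : ℝ) < θ / 2 by positivity)).comp_tendsto tN).bound hδ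
    filter_upwards [h1, eventually_ge_atTop 1] with X h2 h3
    simp only [Function.comp_def] at h2
    rwa [Real.norm_of_nonneg (Real.log_natCast_nonneg X), Real.norm_of_nonneg (by positivity)] at h2
  have hev3 : ∀ᶠ S : ℕ in atTop, 9 ≤ (S : ℝ) ^ (θ / 2) :=
    ((tendsto_rpow_atTop (show (0 : ℝ) < θ / 2 by positivity)).comp tN).eventually_ge_atTop 9
  obtain ⟨S₁, hS₁⟩ := eventually_atTop.1 (hev2.and hev3)
  refine ⟨η, hη0, hη1, S₁ + 2, fun S hS Y hY1 hY2 n hn H hH => ?_⟩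
  obtain ⟨h1, h2⟩ := hS₁ S (by omega)
  have hS2 : (2 : ℝ) ≤ S := by exact_mod_cast (by omega : 2 ≤ S)
  have hS0 : (0 : ℝ) < S := by linarith
  have hL0 : 0 < Real.log (S : ℝ) := Real.log_pos (by linarith)
  have hY0 : (0 : ℝ) ≤ Y := Nat.cast_nonneg Y
  rcases le_or_gt (H : ℝ) ((S : ℝ) ^ (θ / 2)) with hsm | hbig
  · have h3 : (MX.pc n H : ℝ) ≤ H := by exact_mod_cast pc_le n H
    have h4 : (S : ℝ) ^ θ = (S : ℝ) ^ (θ / 2) * (S : ℝ) ^ (θ / 2) := by
      rw [← Real.rpow_add hS0]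
      congr 1
      ring
    calc MX.pc n H * Real.log S ≤ (S : ℝ) ^ (θ / 2) * (δ * (S : ℝ) ^ (θ / 2)) := by
          apply mul_le_mul (h3.trans hsm) h1 hL0.le (by positivity)
      _ = δ * (S : ℝ) ^ θ := by rw [h4]; ring
      _ ≤ δ * Y := by gcongr
  · have h9 : (9 : ℝ) < H := by linarith
    have h9n : 9 ≤ H := by
      have : (9 : ℕ) < H := by exact_mod_cast h9
      omega
    have hHY : (H : ℝ) ≤ Y := hH.trans (mul_le_of_le_one_left hY0 hη1)
    have hHn : H ≤ n := by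
      have : H ≤ Y := by exact_mod_cast hHY
      omega
    have h3 := hbt n H h9n hHn
    have hH0 : (0 : ℝ) < H := by linarith
    have hlogH : θ / 2 * Real.log S ≤ Real.log H := by
      rw [← Real.log_rpow hS0]
      exact Real.log_le_log (by positivity) hbig.le
    have hlp : 0 < θ / 2 * Real.log S := by positivity
    calc MX.pc n H * Real.log S ≤ C * (H / Real.log H) * Real.log S := by gcongr
      _ ≤ C * (H / (θ / 2 * Real.log S)) * Real.log S := by gcongr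
      _ = 2 * C / θ * H := by field_simp
      _ ≤ 2 * C / θ * (η * Y) := by gcongr
      _ ≤ 2 * C / θ * (δ * θ / (2 * C) * Y) := by gcongr
      _ = δ * Y := by field_simp

theorem sum_pc_ge' (S Y H : ℕ) (hHY : H ≤ Y) : H * MX.pc S Y ≤ ∑ i ∈ range Y, MX.pc (S + i) H + H * MX.pc S H := by
  classical
  have h0 : MX.pc S Y = MX.pc S H + MX.pc (S + H) (Y - H) := by
    have h1 := pc_add S H (Y - H)
    rwa [Nat.add_sub_cancel' hHY] at h1
  have h1 : H * MX.pc (S + H) (Y - H) ≤ ∑ i ∈ range Y, MX.pc (S + i) H := by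
    rw [sum_pc_eq]
    have hsub : (Ioc (S + H) (S + H + (Y - H))).filter Nat.Prime ⊆ (Ioc S (S + (Y + H))).filter Nat.Prime := by
      intro p hp
      rw [mem_filter, mem_Ioc] at hp ⊢
      exact ⟨⟨by omega, by omega⟩, hp.2⟩
    calc H * MX.pc (S + H) (Y - H) = ∑ _p ∈ (Ioc (S + H) (S + H + (Y - H))).filter Nat.Prime, H := by
          rw [Finset.sum_const, smul_eq_mul, mul_comm]
          rfl
      _ ≤ ∑ p ∈ (Ioc (S + H) (S + H + (Y - H))).filter Nat.Prime,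
          ((range Y).filter (fun i => S + i < p ∧ p ≤ S + i + H)).card := by
          refine Finset.sum_le_sum fun p hp => ?_
          rw [mem_filter, mem_Ioc] at hp
          have h1 : Ico (p - S - H) (p - S) ⊆ (range Y).filter (fun i => S + i < p ∧ p ≤ S + i + H) := by
            intro i hi
            rw [mem_Ico] at hi
            rw [mem_filter, mem_range]
            omega
          have h2 := Finset.card_le_card h1
          rw [Nat.card_Ico] at h2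
          omega
      _ ≤ _ := Finset.sum_le_sum_of_subset hsub
  rw [h0, mul_add]
  omega

/-- **the mean** -/
theorem mean2 {θ δ : ℝ} (hθ : 0 < θ) (hδ : 0 < δ) : ∃ η : ℝ, 0 < η ∧ η ≤ 1 ∧ ∃ S₀ : ℕ, ∀ S : ℕ, S₀ ≤ S → ∀ Y : ℕ,
    (S : ℝ) ^ θ ≤ Y → Y ≤ S → ∀ H : ℕ, 1 ≤ H → (H : ℝ) ≤ η * Y →
      |∑ i ∈ range Y, MX.pc (S + i) H * Real.log S / H - MX.pc S Y * Real.log S| ≤ δ * Y := by
  obtain ⟨η, hη0, hη1, S₀, h⟩ := small hθ hδ
  refine ⟨η, hη0, hη1, S₀ + 1, fun S hS Y hY1 hY2 H hH1 hH2 => ?_⟩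
  have hY0 : (0 : ℝ) ≤ Y := Nat.cast_nonneg Y
  have hHYr : (H : ℝ) ≤ Y := hH2.trans (mul_le_of_le_one_left hY0 hη1)
  have hHY : H ≤ Y := by exact_mod_cast hHYr
  have a1 := h S (by omega) Y hY1 hY2 (S + Y) (by omega) H hH2
  have a2 := h S (by omega) Y hY1 hY2 S le_rfl H hH2
  obtain ⟨L, hL⟩ : ∃ L, L = Real.log (S : ℝ) := ⟨_, rfl⟩
  have hL0 : 0 ≤ L := by rw [hL]; exact Real.log_natCast_nonneg S
  rw [← hL] at a1 a2 ⊢
  have hHr : (1 : ℝ) ≤ H := by exact_mod_cast hH1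
  have hH0 : (0 : ℝ) < H := by linarith
  have e1 : ∑ i ∈ range Y, (MX.pc (S + i) H : ℝ) * L / H = L / H * ((∑ i ∈ range Y, MX.pc (S + i) H : ℕ) : ℝ) := by
    push_cast
    rw [Finset.mul_sum]
    exact Finset.sum_congr rfl fun i _ => by ring
  rw [e1]
  have hup : ((∑ i ∈ range Y, MX.pc (S + i) H : ℕ) : ℝ) ≤ H * (MX.pc S Y + MX.pc (S + Y) H) := by
    have h5 := sum_pc_le S Y H
    rw [pc_add S Y H] at h5
    exact_mod_cast h5
  have hdn : (H : ℝ) * MX.pc S Y ≤ ((∑ i ∈ range Y, MX.pc (S + i) H : ℕ) : ℝ) + H * MX.pc S H := by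
    exact_mod_cast sum_pc_ge' S Y H hHY
  obtain ⟨Sg, hSg⟩ : ∃ Sg : ℝ, Sg = ((∑ i ∈ range Y, MX.pc (S + i) H : ℕ) : ℝ) := ⟨_, rfl⟩
  rw [← hSg] at hup hdn ⊢
  rw [abs_le]
  constructor
  · have h6 : L / H * (H * MX.pc S Y) ≤ L / H * (Sg + H * MX.pc S H) := by gcongr
    have h7 : L / H * (H * (MX.pc S Y : ℝ)) = MX.pc S Y * L := by field_simp
    have h8 : L / H * (Sg + H * (MX.pc S H : ℝ)) = L / H * Sg + MX.pc S H * L := by field_simp
    linarith
  · have h6 : L / H * Sg ≤ L / H * (H * (MX.pc S Y + MX.pc (S + Y) H)) := by gcongr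
    have h7 : L / H * (H * ((MX.pc S Y : ℝ) + MX.pc (S + Y) H)) = MX.pc S Y * L + MX.pc (S + Y) H * L := by
      field_simp
    linarith

end Pool.Agent.U26Z.RS
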