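import Pool.Agent.U26Z.RS.FamR
import Pool.Agent.U26Z.EX.Samp

set_option autoImplicit false

/-!
# Sampling the primes of an arbitrary interval of length `x ^ θ`: all real parameters
-/

namespace Pool.Agent.U26Z.RS

open Finset Filter Topology MeasureTheory ProbabilityTheory Pool.Agent.U26Z.EX

open Pool.Agent.U26Z.DX (primesIn density)

theorem ratio {L ℓ H H' η : ℝ} (hL : 0 < L) (hℓ1 : L ≤ ℓ) (hℓ2 : ℓ ≤ L + 2) (hH' : H' ≤ H) (hH2 : H < H' + 1)
    (h0 : 0 ≤ H') (hHL : L ≤ H) (hη0 : 0 ≤ η) (hη : 3 ≤ η * L) : |ℓ * H' / (H * L) - 1| ≤ η := by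
  have hH0 : 0 < H := by linarith
  rw [div_sub_one (by positivity), abs_div, abs_of_pos (show 0 < H * L by positivity), div_le_iff₀ (by positivity),
    abs_le]
  constructor
  · have h6 : L * H' ≤ ℓ * H' := by gcongr
    have h7 : L * (H - 1) ≤ L * H' := by gcongr; linarith
    have h8 : L ≤ η * (H * L) := by
      have h9 : 1 ≤ η * H := by
        have : η * L ≤ η * H := by gcongr
        linarith
      have h10 : 1 * L ≤ (η * H) * L := mul_le_mul_of_nonneg_right h9 hL.le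
      linarith
    linarith
  · have h6 : ℓ * H' ≤ (L + 2) * H := by
      have : 0 ≤ ℓ := by linarith
      gcongr
    have h8 : 2 * H ≤ η * (H * L) := by
      have h9 : 2 * H ≤ (η * L) * H := by
        gcongr
        linarith
      linarith
    linarith

section
variable {Ω : Type*} [MeasurableSpace Ω] {P : Measure Ω} [IsProbabilityMeasure P] {lam : ℕ → Ω → ℝ}
  (hm : ∀ j, Measurable (lam j)) (hi : iIndepFun lam P) (hu : ∀ j, P.map (lam j) = volume.restrict (Set.Icc 0 1))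

include hm hi hu

/-- **relative sampling, all real parameters** -/
theorem sampR {θ ε : ℝ} (hθ : 0 < θ) (hε : 0 < ε) : ∃ C : ℝ, 0 < C ∧ ∀ᵐ ω ∂P, ∀ᶠ x : ℝ in atTop, ∀ Y : ℝ,
    x ^ θ ≤ Y → Y ≤ x → ∀ H : ℝ, C * Real.log x ≤ H → C * H ≤ Y → ∀ m : ℕ, C * Real.log x ≤ m →
      |∑ j ∈ range m, density (x + lam j ω * Y) H - density x Y * m| ≤ ε * m := by
  obtain ⟨A, η, hA, hη, hfam⟩ := famR hm hi hu (show 0 < θ / 2 by positivity) (show 0 < ε / 4 by positivity)
  obtain ⟨M, hM, S₁, hmu⟩ := mu_le (show 0 < θ / 2 by positivity)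
  obtain ⟨r, hr⟩ : ∃ r, r = ε / (8 * (M + ε)) := ⟨_, rfl⟩
  have hr0 : 0 < r := by rw [hr]; positivity
  obtain ⟨C, hC⟩ : ∃ C, C = max (max A 24) (max (48 / ε) (2 / η)) := ⟨_, rfl⟩
  have hCA : A ≤ C := by rw [hC]; exact (le_max_left _ _).trans (le_max_left _ _)
  have hC24 : 24 ≤ C := by rw [hC]; exact (le_max_right _ _).trans (le_max_left _ _)
  have hCε : 48 / ε ≤ C := by rw [hC]; exact (le_max_left _ _).trans (le_max_right _ _)
  have hCη : 2 / η ≤ C := by rw [hC]; exact (le_max_right _ _).trans (le_max_right _ _)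
  have hC0 : 0 < C := by linarith
  refine ⟨C, hC0, ?_⟩
  filter_upwards [hfam, ae_Icc hm hu] with ω hω hI
  have tF : Tendsto (fun x : ℝ => ⌊x⌋₊) atTop atTop := tendsto_nat_floor_atTop
  have hev1 := tF.eventually hω
  have hev2 : ∀ᶠ x : ℝ in atTop, 2 ≤ x ^ (θ / 2) :=
    (tendsto_rpow_atTop (show 0 < θ / 2 by positivity)).eventually_ge_atTop 2
  have hev3 := tF.eventually (eventually_ge_atTop S₁)
  filter_upwards [hev1, hev2, hev3, eventually_ge_atTop (4 : ℝ),
    Real.tendsto_log_atTop.eventually_ge_atTop (3 / r + 4)] with x h1 h2 h3 h4 h5 Y hY1 hY2 H hH1 hH2 m hmm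
  have hx0 : 0 < x := by linarith
  have hlogx : 0 < Real.log x := Real.log_pos (by linarith)
  have hYpos : 0 < Y := lt_of_lt_of_le (by positivity) hY1
  have hm0 : (0 : ℝ) ≤ m := Nat.cast_nonneg m
  have hHpos : 0 < H := lt_of_lt_of_le (by positivity) hH1
  obtain ⟨S, hS⟩ : ∃ S, S = ⌊x⌋₊ := ⟨_, rfl⟩
  obtain ⟨Y', hY'⟩ : ∃ Y', Y' = ⌊Y⌋₊ := ⟨_, rfl⟩
  obtain ⟨H', hH'⟩ : ∃ H', H' = ⌊H⌋₊ := ⟨_, rfl⟩
  rw [← hS] at h1 h3
  have hSx : (S : ℝ) ≤ x := by rw [hS]; exact Nat.floor_le hx0.le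
  have hSx2 : x < S + 1 := by rw [hS]; exact Nat.lt_floor_add_one x
  have hYY : (Y' : ℝ) ≤ Y := by rw [hY']; exact Nat.floor_le hYpos.le
  have hYY2 : Y < Y' + 1 := by rw [hY']; exact Nat.lt_floor_add_one Y
  have hHH : (H' : ℝ) ≤ H := by rw [hH']; exact Nat.floor_le hHpos.le
  have hHH2 : H < H' + 1 := by rw [hH']; exact Nat.lt_floor_add_one H
  have hS3 : (3 : ℝ) < S := by linarith
  have hS0 : (0 : ℝ) < S := by linarith
  obtain ⟨L, hL⟩ : ∃ L, L = Real.log (S : ℝ) := ⟨_, rfl⟩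
  have hLx : L ≤ Real.log x := by rw [hL]; exact Real.log_le_log hS0 hSx
  have hLx2 : Real.log x ≤ L + 1 := by
    have h6 : Real.log x ≤ Real.log (2 * S) := Real.log_le_log hx0 (by linarith)
    rw [Real.log_mul (by norm_num) hS0.ne', ← hL] at h6
    have := Real.log_two_lt_d9
    linarith
  have hLbig : 3 / r + 3 ≤ L := by linarith
  have h3r : 0 < 3 / r := by positivity
  have hL1 : 1 ≤ L := by linarith
  have hL0 : 0 < L := by linarith
  have hrL : 3 ≤ r * L := by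
    have h6 : 3 / r ≤ L := by linarith
    rw [div_le_iff₀ hr0] at h6
    linarith
  -- the conditions
  have h24 : 24 * Real.log x ≤ H := le_trans (mul_le_mul_of_nonneg_right hC24 hlogx.le) hH1
  have hHY : 24 * H ≤ Y := le_trans (mul_le_mul_of_nonneg_right hC24 hHpos.le) hH2
  have hY24 : 24 ≤ Y := by linarith
  have c1 : (S : ℝ) ^ (θ / 2) ≤ Y' := by
    have h6 : (S : ℝ) ^ (θ / 2) ≤ x ^ (θ / 2) := by gcongr
    have h7 : x ^ θ = x ^ (θ / 2) * x ^ (θ / 2) := by
      rw [← Real.rpow_add hx0]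
      congr 1
      ring
    have h8 : 2 * x ^ (θ / 2) ≤ Y := by
      refine le_trans ?_ hY1
      rw [h7]
      gcongr
    linarith
  have c2 : Y' ≤ S := by
    rw [hY', hS]
    exact Nat.floor_le_floor hY2
  have c3 : Real.log S ≤ H' := by
    rw [← hL]
    linarith
  have c4 : (H' : ℝ) ≤ η * Y' := by
    have h6 : 2 ≤ η * C := by
      rw [div_le_iff₀ hη] at hCη
      linarith
    have h7 : 2 * H ≤ η * Y := by
      calc 2 * H ≤ η * C * H := by gcongr
        _ = η * (C * H) := by ring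
        _ ≤ η * Y := by gcongr
    have h8 : η * Y ≤ η * (2 * Y') := by
      gcongr
      linarith
    linarith
  have c5 : A * Real.log S ≤ m := by
    rw [← hL]
    refine le_trans ?_ hmm
    calc A * L ≤ C * L := by gcongr
      _ ≤ C * Real.log x := by gcongr
  have hmain := h1 Y' c1 c2 H' c3 c4 m c5
  have hμM := hmu S h3 Y' c1 c2
  rw [← hL] at hmain hμM
  have hH'0 : (0 : ℝ) < H' := by linarith
  have hY'0 : (0 : ℝ) < Y' := by linarith
  obtain ⟨μ, hμ⟩ : ∃ μ : ℝ, μ = MX.pc S Y' * L / Y' := ⟨_, rfl⟩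
  have hμ0 : 0 ≤ μ := by rw [hμ]; positivity
  rw [← hμ] at hmain hμM
  obtain ⟨V, hV⟩ : ∃ V : ℝ, V = ∑ j ∈ range m, MX.pc (S + ⌊lam j ω * Y'⌋₊) H' * L / H' := ⟨_, rfl⟩
  rw [← hV] at hmain
  have hCL : C * L ≤ C * Real.log x := by gcongr
  have hVm : V ≤ (M + ε) * m := by
    have h6 := (abs_le.1 hmain).2
    have h7 : μ * (m : ℝ) ≤ M * m := by gcongr
    have h8 : ε / 4 * (m : ℝ) ≤ ε * m := by
      gcongr
      linarith
    linarith
  have hterm : ∀ j ∈ range m, |density (x + lam j ω * Y) H - MX.pc (S + ⌊lam j ω * Y'⌋₊) H' * L / H'| ≤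
      6 / C + r * (MX.pc (S + ⌊lam j ω * Y'⌋₊) H' * L / H') := by
    intro j _
    obtain ⟨hj0, hj1⟩ := hI j
    obtain ⟨hc1, hc2⟩ := close (x := x) (Y := Y) hx0.le hYpos.le hj0 hj1
    rw [← hS, ← hY'] at hc1 hc2
    obtain ⟨hw1, hw2⟩ := windows hHpos.le hc1 hc2
    rw [← hH'] at hw1 hw2
    unfold density
    have h7 : 0 ≤ lam j ω * Y := by positivity
    have h8 : lam j ω * Y ≤ x := (mul_le_of_le_one_left hYpos.le hj1).trans hY2
    have hℓ1 : L ≤ Real.log (x + lam j ω * Y) := hLx.trans (Real.log_le_log hx0 (by linarith))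
    have hℓ2 : Real.log (x + lam j ω * Y) ≤ L + 2 := by
      have h6 : Real.log (x + lam j ω * Y) ≤ Real.log (2 * x) := Real.log_le_log (by linarith) (by linarith)
      rw [Real.log_mul (by norm_num) hx0.ne'] at h6
      have := Real.log_two_lt_d9
      linarith
    have hCH : C * L ≤ H := hCL.trans hH1
    apply dens_cmp hL0 hHpos hH'0 (Nat.cast_nonneg _) _ (by linarith) (by linarith) hC0 hCH
    · exact ratio hL0 hℓ1 hℓ2 hHH hHH2 hH'0.le (by linarith) hr0.le hrL
    · have e1 : (primesIn (x + lam j ω * Y) H : ℝ) ≤ MX.pc (S + ⌊lam j ω * Y'⌋₊) H' + 3 := by exact_mod_cast hw1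
      have e2 : (MX.pc (S + ⌊lam j ω * Y'⌋₊) H' : ℝ) ≤ primesIn (x + lam j ω * Y) H + 3 := by exact_mod_cast hw2
      rw [abs_le]
      constructor <;> linarith
  have hsum : |∑ j ∈ range m, density (x + lam j ω * Y) H - V| ≤ 6 / C * m + r * V := by
    rw [hV, ← Finset.sum_sub_distrib]
    refine (Finset.abs_sum_le_sum_abs _ _).trans ((Finset.sum_le_sum hterm).trans (le_of_eq ?_))
    rw [Finset.sum_add_distrib, Finset.sum_const, Finset.card_range, nsmul_eq_mul, ← Finset.mul_sum]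
    ring
  -- the interval itself
  have hself : |density x Y - μ| ≤ 6 / C + r * μ := by
    obtain ⟨hw1, hw2⟩ := windows (y := x) (n := S) hYpos.le hSx (by linarith)
    rw [← hY'] at hw1 hw2
    rw [hμ]
    unfold density
    have hCY : C * L ≤ Y := by linarith
    apply dens_cmp hL0 hYpos hY'0 (Nat.cast_nonneg _) _ (by linarith) (by linarith) hC0 hCY
    · exact ratio hL0 hLx (by linarith) hYY hYY2 hY'0.le (by linarith) hr0.le hrL
    · have e1 : (primesIn x Y : ℝ) ≤ MX.pc S Y' + 3 := by exact_mod_cast hw1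
      have e2 : (MX.pc S Y' : ℝ) ≤ primesIn x Y + 3 := by exact_mod_cast hw2
      rw [abs_le]
      constructor <;> linarith
  have h6 : 6 / C ≤ ε / 8 := by
    rw [div_le_iff₀ hC0]
    rw [div_le_iff₀ hε] at hCε
    linarith
  have h7 : 6 / C * (m : ℝ) ≤ ε / 8 * m := by gcongr
  have hrM : r * (M + ε) = ε / 8 := by rw [hr]; field_simp
  have h8 : r * V ≤ ε / 8 * m := by
    calc r * V ≤ r * ((M + ε) * m) := by gcongr
      _ = (r * (M + ε)) * m := by ring
      _ = _ := by rw [hrM]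
  have h9 : r * μ ≤ ε / 8 := by
    calc r * μ ≤ r * (M + ε) := by gcongr; linarith
      _ = _ := hrM
  have h10 : |density x Y * m - μ * m| ≤ ε / 4 * m := by
    rw [← sub_mul, abs_mul, abs_of_nonneg hm0]
    gcongr
    linarith
  have k1 := abs_le.1 hmain
  have k2 := abs_le.1 hsum
  have k3 := abs_le.1 h10
  have h13 : 0 ≤ ε * (m : ℝ) := by positivity
  rw [abs_le]
  constructor
  · linarith [k1.1, k2.1, k3.2]
  · linarith [k1.2, k2.2, k3.1]

end

end Pool.Agent.U26Z.RS
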